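import Pool.Agent.Lib.MP_6b611a_co.KS.Sum

/-! Sums over structures. -/

set_option autoImplicit false

open Finset
open scoped Classical

namespace Pool.Agent.Lib.MP_6b611a_co

variable {V E : Type} [Fintype V] [Fintype E]

/-- The number of edges inside `S`. -/
noncomputable def inn (s t : E → V) (S : Finset V) : ℕ :=
  (univ.filter fun e => s e ∈ S ∧ t e ∈ S).card

/-- The edges which join different parts of the complement of `S`; the parts are the members of `𝒩`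
and the other vertices. -/
noncomputable def FF (s t : E → V) (S : Finset V) (𝒩 : Finset (Finset V)) : Finset E :=
  univ.filter fun e => s e ∉ S ∧ t e ∉ S ∧ ∀ X ∈ 𝒩, ¬ (s e ∈ X ∧ t e ∈ X)

theorem dd_symmDiff (s t : E → V) (𝒩 : Finset (Finset V)) (S S' : Finset V)
    (h : ∀ X ∈ 𝒩, Disjoint X S) (h' : ∀ X ∈ 𝒩, Disjoint X S') :
    dd s t (symmDiff S S') ≤
      (inn s t S + (FF s t S 𝒩).card) + (inn s t S' + (FF s t S' 𝒩).card) := by
  have hsub : (univ.filter fun e => ¬ (s e ∈ symmDiff S S' ↔ t e ∈ symmDiff S S')) ⊆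
      ((univ.filter fun e => s e ∈ S ∧ t e ∈ S) ∪ FF s t S 𝒩) ∪
        ((univ.filter fun e => s e ∈ S' ∧ t e ∈ S') ∪ FF s t S' 𝒩) := by
    intro e he
    rw [Finset.mem_filter] at he
    have he2 := he.2
    rw [Finset.mem_symmDiff, Finset.mem_symmDiff] at he2
    have hX : ∀ X ∈ 𝒩, ¬ (s e ∈ X ∧ t e ∈ X) := by
      intro X hX hXe
      have h1 : s e ∉ S := Finset.disjoint_left.1 (h X hX) hXe.1
      have h2 : t e ∉ S := Finset.disjoint_left.1 (h X hX) hXe.2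
      have h3 : s e ∉ S' := Finset.disjoint_left.1 (h' X hX) hXe.1
      have h4 : t e ∉ S' := Finset.disjoint_left.1 (h' X hX) hXe.2
      tauto
    simp only [Finset.mem_union, Finset.mem_filter, Finset.mem_univ, true_and, FF]
    tauto
  unfold dd
  refine (Finset.card_le_card hsub).trans ((Finset.card_union_le _ _).trans ?_)
  exact Nat.add_le_add (Finset.card_union_le _ _) (Finset.card_union_le _ _)

variable [Nonempty V] {s t : E → V} {r : ℕ}

/-- The sum over `S`, for a fixed family of parts. -/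
theorem sum_S (hr : 1 ≤ r) (hcut : ∀ X : Finset V, X.Nonempty → X ≠ univ → r ≤ dd s t X)
    (hV : 2 ≤ Fintype.card V) {z : ℝ} (hz : 0 < z) (hz1 : z ≤ 1)
    (hzr : z ^ r * (2 * Fintype.card V : ℝ) ^ 4 ≤ 1) (𝒩 : Finset (Finset V))
    (𝒮 : Finset (Finset V)) (h𝒮 : ∀ S ∈ 𝒮, ∀ X ∈ 𝒩, Disjoint X S) :
    ∑ S ∈ 𝒮, z ^ (4 * (inn s t S + (FF s t S 𝒩).card)) ≤ 5 / 2 := by
  rcases 𝒮.eq_empty_or_nonempty with he | hne
  · rw [he, Finset.sum_empty]
    norm_num
  obtain ⟨S₀, hS₀, hmin⟩ := Finset.exists_min_image 𝒮 (fun S => inn s t S + (FF s t S 𝒩).card) hne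
  have h1 : ∑ S ∈ 𝒮, z ^ (4 * (inn s t S + (FF s t S 𝒩).card)) ≤
      ∑ S ∈ 𝒮, z ^ (2 * dd s t (symmDiff S S₀)) := by
    refine Finset.sum_le_sum fun S hS => pow_le_pow_of_le_one hz.le hz1 ?_
    have h2 := dd_symmDiff s t 𝒩 S S₀ (h𝒮 S hS) (h𝒮 S₀ hS₀)
    have h3 := hmin S hS
    omega
  refine h1.trans ?_
  have hinj : Set.InjOn (fun S : Finset V => symmDiff S S₀) 𝒮 := by
    intro S _ S' _ h
    exact symmDiff_left_injective S₀ h
  have h2 : ∑ S ∈ 𝒮, z ^ (2 * dd s t (symmDiff S S₀)) =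
      ∑ W ∈ 𝒮.image (fun S => symmDiff S S₀), z ^ (2 * dd s t W) := by
    rw [Finset.sum_image hinj]
  rw [h2]
  have h3 : ∑ W ∈ 𝒮.image (fun S => symmDiff S S₀), z ^ (2 * dd s t W) ≤
      ∑ W : Finset V, z ^ (2 * dd s t W) :=
    Finset.sum_le_sum_of_subset_of_nonneg (Finset.subset_univ _) fun _ _ _ => pow_nonneg hz.le _
  refine h3.trans ?_
  rw [← Finset.sum_filter_add_sum_filter_not (univ : Finset (Finset V))
    (fun X => X.Nonempty ∧ X ≠ univ)]
  have h4 := sum_all hr hcut hV hz hz1 hzr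
  have h5 : ∑ X ∈ (univ : Finset (Finset V)).filter (fun X => ¬ (X.Nonempty ∧ X ≠ univ)),
      z ^ (2 * dd s t X) ≤ 2 := by
    have h6 : (univ : Finset (Finset V)).filter (fun X => ¬ (X.Nonempty ∧ X ≠ univ)) ⊆
        {∅, univ} := by
      intro X hX
      rw [Finset.mem_filter] at hX
      rw [Finset.mem_insert, Finset.mem_singleton]
      by_contra hc
      rw [not_or] at hc
      exact hX.2 ⟨Finset.nonempty_iff_ne_empty.2 hc.1, hc.2⟩
    have h7 : ((univ : Finset (Finset V)).filter (fun X => ¬ (X.Nonempty ∧ X ≠ univ))).card ≤ 2 :=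
      (Finset.card_le_card h6).trans Finset.card_le_two
    refine (Finset.sum_le_card_nsmul _ _ 1 fun X _ => pow_le_one₀ hz.le hz1).trans ?_
    rw [nsmul_eq_mul, mul_one]
    exact_mod_cast h7
  linarith

/-- The number of subsets with at most `τ` elements. -/
theorem card_small {α : Type} [Fintype α] (D : Finset α) (τ : ℕ) :
    (D.powerset.filter fun A => A.card ≤ τ).card ≤ (D.card + 1) ^ τ := by
  let f : (Fin τ → Option D) → Finset α := fun g =>
    univ.filter fun x => ∃ i, ∃ h : x ∈ D, g i = some ⟨x, h⟩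
  have h1 : (D.powerset.filter fun A => A.card ≤ τ) ⊆ (univ : Finset (Fin τ → Option D)).image f := by
    intro A hA
    rw [Finset.mem_filter, Finset.mem_powerset] at hA
    rw [Finset.mem_image]
    refine ⟨fun i => if h : i.1 < A.card then
      some ⟨(A.equivFin.symm ⟨i.1, h⟩).1, hA.1 (A.equivFin.symm ⟨i.1, h⟩).2⟩ else none,
      Finset.mem_univ _, ?_⟩
    ext x
    simp only [f, Finset.mem_filter, Finset.mem_univ, true_and]
    constructor
    · rintro ⟨i, hx, hi⟩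
      by_cases h : i.1 < A.card
      · rw [dif_pos h] at hi
        have h2 := congrArg (fun o : Option D => o.map Subtype.val) hi
        simp only [Option.map_some, Option.some.injEq] at h2
        rw [← h2]
        exact (A.equivFin.symm ⟨i.1, h⟩).2
      · rw [dif_neg h] at hi
        exact absurd hi (by simp)
    · intro hx
      have hlt : (A.equivFin ⟨x, hx⟩ : ℕ) < A.card := (A.equivFin ⟨x, hx⟩).2
      refine ⟨⟨A.equivFin ⟨x, hx⟩, hlt.trans_le hA.2⟩, hA.1 hx, ?_⟩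
      rw [dif_pos hlt]
      congr 1
      apply Subtype.ext
      change (A.equivFin.symm (A.equivFin ⟨x, hx⟩)).1 = x
      rw [Equiv.symm_apply_apply]
  refine (Finset.card_le_card h1).trans (Finset.card_image_le.trans ?_)
  rw [Finset.card_univ, Fintype.card_fun, Fintype.card_option, Fintype.card_coe, Fintype.card_fin]

/-- The sum over the families of parts. -/
theorem sum_fam (hr : 1 ≤ r) (hcut : ∀ X : Finset V, X.Nonempty → X ≠ univ → r ≤ dd s t X)
    (hV : 2 ≤ Fintype.card V) {z : ℝ} (hz : 0 < z) (hz1 : z ≤ 1)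
    (hzr : z ^ r * (2 * Fintype.card V : ℝ) ^ 4 ≤ 1) {E₀ : ℕ} (hE₀ : E₀ ≤ r)
    (hz0 : z ^ (4 * E₀) * (2 * Fintype.card V : ℝ) ^ 6 ≤ 1) (τ : ℕ)
    (𝔉 : Finset (Finset (Finset V))) (h𝔉 : ∀ 𝒩 ∈ 𝔉, (∀ X ∈ 𝒩, X.Nonempty ∧ X ≠ univ) ∧
      (𝒩.filter fun X => dd s t X < r + E₀).card ≤ τ) :
    ∑ 𝒩 ∈ 𝔉, z ^ (4 * ∑ X ∈ 𝒩, (dd s t X - r)) ≤
      2 * (2 * Fintype.card V : ℝ) ^ (5 * τ) := by
  set 𝒟n := (univ : Finset (Finset V)).filter
    (fun X => (X.Nonempty ∧ X ≠ univ) ∧ dd s t X < r + E₀) with h𝒟n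
  set 𝒟f := (univ : Finset (Finset V)).filter
    (fun X => (X.Nonempty ∧ X ≠ univ) ∧ r + E₀ ≤ dd s t X) with h𝒟f
  have hN : (4 : ℝ) ≤ 2 * Fintype.card V := by
    have h2 : (2 : ℝ) ≤ Fintype.card V := by exact_mod_cast hV
    linarith
  -- split a family
  have h1 : ∑ 𝒩 ∈ 𝔉, z ^ (4 * ∑ X ∈ 𝒩, (dd s t X - r)) ≤
      ∑ p ∈ (𝒟n.powerset.filter fun A => A.card ≤ τ) ×ˢ 𝒟f.powerset,
        ∏ X ∈ p.2, z ^ (4 * (dd s t X - r)) := by
    have hinj : Set.InjOn (fun 𝒩 : Finset (Finset V) =>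
        ((𝒩.filter fun X => dd s t X < r + E₀), (𝒩.filter fun X => ¬ dd s t X < r + E₀))) 𝔉 := by
      intro 𝒩 _ 𝒩' _ h
      simp only [Prod.mk.injEq] at h
      rw [← Finset.filter_union_filter_not_eq (fun X => dd s t X < r + E₀) 𝒩,
        ← Finset.filter_union_filter_not_eq (fun X => dd s t X < r + E₀) 𝒩', h.1, h.2]
    have h2 : ∑ 𝒩 ∈ 𝔉, z ^ (4 * ∑ X ∈ 𝒩, (dd s t X - r)) ≤
        ∑ 𝒩 ∈ 𝔉, ∏ X ∈ (𝒩.filter fun X => ¬ dd s t X < r + E₀), z ^ (4 * (dd s t X - r)) := by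
      refine Finset.sum_le_sum fun 𝒩 _ => ?_
      rw [Finset.prod_pow_eq_pow_sum, ← Finset.mul_sum]
      refine pow_le_pow_of_le_one hz.le hz1 (Nat.mul_le_mul_left _ ?_)
      exact Finset.sum_le_sum_of_subset (Finset.filter_subset _ _)
    refine h2.trans ?_
    have h3 : ∑ 𝒩 ∈ 𝔉, ∏ X ∈ (𝒩.filter fun X => ¬ dd s t X < r + E₀), z ^ (4 * (dd s t X - r)) =
        ∑ p ∈ 𝔉.image (fun 𝒩 : Finset (Finset V) =>
          ((𝒩.filter fun X => dd s t X < r + E₀), (𝒩.filter fun X => ¬ dd s t X < r + E₀))),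
          ∏ X ∈ p.2, z ^ (4 * (dd s t X - r)) := by
      rw [Finset.sum_image hinj]
    rw [h3]
    refine Finset.sum_le_sum_of_subset_of_nonneg ?_ fun _ _ _ =>
      Finset.prod_nonneg fun _ _ => pow_nonneg hz.le _
    intro p hp
    rw [Finset.mem_image] at hp
    obtain ⟨𝒩, h𝒩, rfl⟩ := hp
    rw [Finset.mem_product, Finset.mem_filter, Finset.mem_powerset, Finset.mem_powerset]
    refine ⟨⟨fun X hX => ?_, (h𝔉 𝒩 h𝒩).2⟩, fun X hX => ?_⟩
    · rw [Finset.mem_filter] at hX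
      exact Finset.mem_filter.2 ⟨Finset.mem_univ _, (h𝔉 𝒩 h𝒩).1 X hX.1, hX.2⟩
    · rw [Finset.mem_filter] at hX
      exact Finset.mem_filter.2 ⟨Finset.mem_univ _, (h𝔉 𝒩 h𝒩).1 X hX.1, not_lt.1 hX.2⟩
  refine h1.trans ?_
  rw [Finset.sum_product]
  simp only
  rw [Finset.sum_const, nsmul_eq_mul]
  have h4 : ∑ B ∈ 𝒟f.powerset, ∏ X ∈ B, z ^ (4 * (dd s t X - r)) ≤ 2 := by
    rw [← Finset.prod_one_add]
    have h5 : ∏ X ∈ 𝒟f, (1 + z ^ (4 * (dd s t X - r))) ≤
        Real.exp (∑ X ∈ 𝒟f, z ^ (4 * (dd s t X - r))) := by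
      rw [Real.exp_sum]
      refine Finset.prod_le_prod (fun _ _ => by positivity) fun X _ => ?_
      rw [add_comm]
      exact Real.add_one_le_exp _
    have h6 := sum_far hr hcut hV hz hz1 hzr hz0
    refine h5.trans ((Real.exp_le_exp.2 h6).trans ?_)
    have h7 : Real.exp (1 / 2) ^ 2 ≤ 2 ^ 2 := by
      rw [← Real.exp_nat_mul]
      norm_num
      have := Real.exp_one_lt_d9
      linarith
    exact (pow_le_pow_iff_left₀ (Real.exp_pos _).le (by norm_num) (by norm_num)).1 h7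
  have h8 : ((𝒟n.powerset.filter fun A => A.card ≤ τ).card : ℝ) ≤
      (2 * Fintype.card V : ℝ) ^ (5 * τ) := by
    have h9 := card_small 𝒟n τ
    have h10 : 𝒟n.card ≤ (2 * Fintype.card V) ^ 4 := by
      refine le_trans (Finset.card_le_card ?_) (karger s t r 4 hr (by norm_num) hcut)
      intro X hX
      rw [Finset.mem_filter] at hX ⊢
      refine ⟨Finset.mem_univ _, ?_⟩
      omega
    have h11 : (𝒟n.card + 1 : ℕ) ≤ (2 * Fintype.card V) ^ 5 := by
      have h12 : 1 ≤ (2 * Fintype.card V) ^ 4 := Nat.one_le_pow _ _ (by omega)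
      have h13 : (2 * Fintype.card V) ^ 5 = (2 * Fintype.card V) ^ 4 * (2 * Fintype.card V) := by
        rw [pow_succ]
      have h14 : (2 * Fintype.card V) ^ 4 * 2 ≤ (2 * Fintype.card V) ^ 4 * (2 * Fintype.card V) :=
        Nat.mul_le_mul_left _ (by omega)
      omega
    have h15 : (𝒟n.card + 1) ^ τ ≤ (2 * Fintype.card V) ^ (5 * τ) := by
      rw [pow_mul]
      exact Nat.pow_le_pow_left h11 τ
    exact_mod_cast h9.trans h15
  have h16 : 0 ≤ ∑ B ∈ 𝒟f.powerset, ∏ X ∈ B, z ^ (4 * (dd s t X - r)) :=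
    Finset.sum_nonneg fun _ _ => Finset.prod_nonneg fun _ _ => pow_nonneg hz.le _
  calc _ ≤ (2 * Fintype.card V : ℝ) ^ (5 * τ) * 2 := mul_le_mul h8 h4 h16 (by positivity)
    _ = _ := by ring

end Pool.Agent.Lib.MP_6b611a_co
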