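import Pool.Agent.Lib.MP_6b611a_co.KS.Main

/-! The numbers, and the translation to the conventions of the frozen statement. -/

set_option autoImplicit false

open Finset
open scoped Classical

namespace Pool.Agent.Lib.MP_6b611a_co

/-- The number `z`. -/
theorem exists_z {k : ℕ} (hk : 2 ≤ k) : ∃ z : ℝ, 0 < z ∧ z ≤ 1 ∧ z ^ 16 = 1 - 1 / k ∧
    z ^ (16 * k) ≤ 1 / 2 := by
  have hk0 : (0 : ℝ) < k := by exact_mod_cast (by omega : 0 < k)
  have hk2 : (2 : ℝ) ≤ k := by exact_mod_cast hk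
  have h1 : (0 : ℝ) < 1 - 1 / k := by
    have : 1 / (k : ℝ) ≤ 1 / 2 := one_div_le_one_div_of_le (by norm_num) hk2
    linarith
  have h2 : (1 : ℝ) - 1 / k ≤ 1 := by
    have : 0 ≤ 1 / (k : ℝ) := by positivity
    linarith
  refine ⟨(1 - 1 / (k : ℝ)) ^ ((1 : ℝ) / (16 : ℕ)), Real.rpow_pos_of_pos h1 _,
    Real.rpow_le_one h1.le h2 (by positivity), ?_, ?_⟩
  · rw [one_div (((16 : ℕ) : ℝ)), Real.rpow_inv_natCast_pow h1.le (by norm_num)]
  · rw [pow_mul, one_div (((16 : ℕ) : ℝ)), Real.rpow_inv_natCast_pow h1.le (by norm_num)]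
    have h3 : (1 : ℝ) - 1 / k ≤ Real.exp (-(1 / k)) := by
      have := Real.add_one_le_exp (-(1 / (k : ℝ)))
      linarith
    have h4 : (1 - 1 / (k : ℝ)) ^ k ≤ Real.exp (-1) := by
      refine (pow_le_pow_left₀ h1.le h3 k).trans ?_
      rw [← Real.exp_nat_mul]
      refine le_of_eq ?_
      congr 1
      field_simp
    refine h4.trans ?_
    rw [Real.exp_neg, ← one_div]
    refine one_div_le_one_div_of_le (by norm_num) ?_
    have := Real.add_one_le_exp (1 : ℝ)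
    linarith

theorem numbers {k ℓ n r τ : ℕ} (hk : 2 ≤ k) (hn : 2 ≤ n) (hℓ : 2 * n ≤ 2 ^ ℓ) (hkℓ : k ≤ 2 ^ ℓ)
    (hr : 8 * k * ℓ * (τ + 8) ≤ r) : ∃ z : ℝ, 0 < z ∧ z ≤ 1 ∧ z ^ 16 = 1 - 1 / k ∧
      z ^ r * (2 * n : ℝ) ^ 4 ≤ 1 ∧ z ^ (4 * (24 * k * ℓ)) * (2 * n : ℝ) ^ 6 ≤ 1 ∧
      5 * k * z ^ (12 * r) * (2 * n : ℝ) ^ (5 * τ) < 1 := by
  obtain ⟨z, hz, hz1, h16, hhalf⟩ := exists_z hk
  set a : ℝ := z ^ (16 * k * ℓ) with ha
  have ha0 : 0 < a := pow_pos hz _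
  have ha1 : a ≤ 1 / 2 ^ ℓ := by
    rw [ha, pow_mul]
    refine (pow_le_pow_left₀ (pow_pos hz _).le hhalf ℓ).trans (le_of_eq ?_)
    rw [one_div_pow]
  have h2ℓ : (0 : ℝ) < 2 ^ ℓ := by positivity
  have hn0 : (0 : ℝ) < 2 * n := by
    have : (0 : ℝ) < n := by exact_mod_cast (by omega : 0 < n)
    linarith
  have hnℓ : (2 * n : ℝ) ≤ 2 ^ ℓ := by exact_mod_cast hℓ
  have han : a * (2 * n) ≤ 1 := by
    have h1 : a * (2 * n) ≤ 1 / 2 ^ ℓ * 2 ^ ℓ := mul_le_mul ha1 hnℓ hn0.le (by positivity)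
    rwa [one_div_mul_cancel h2ℓ.ne'] at h1
  have hak : a * k ≤ 1 := by
    have hkℓ' : (k : ℝ) ≤ 2 ^ ℓ := by exact_mod_cast hkℓ
    have h1 : a * k ≤ 1 / 2 ^ ℓ * 2 ^ ℓ := mul_le_mul ha1 hkℓ' (by positivity) (by positivity)
    rwa [one_div_mul_cancel h2ℓ.ne'] at h1
  have hn2 : (2 : ℝ) ≤ n := by exact_mod_cast hn
  have ha4 : a ≤ 1 / 4 := by
    have : (4 : ℝ) * a ≤ a * (2 * n) := by nlinarith
    linarith
  have hpow : ∀ m : ℕ, a ^ m * (2 * n : ℝ) ^ m ≤ 1 := by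
    intro m
    rw [← mul_pow]
    exact pow_le_one₀ (by positivity) han
  refine ⟨z, hz, hz1, h16, ?_, ?_, ?_⟩
  · refine le_trans (mul_le_mul_of_nonneg_right ?_ (by positivity)) (hpow 4)
    rw [ha, ← pow_mul]
    refine pow_le_pow_of_le_one hz.le hz1 ?_
    have h1 : 8 * k * ℓ * 8 ≤ 8 * k * ℓ * (τ + 8) := Nat.mul_le_mul_left _ (by omega)
    have h2 : 16 * k * ℓ * 4 = 8 * k * ℓ * 8 := by ring
    omega
  · have h1 : z ^ (4 * (24 * k * ℓ)) = a ^ 6 := by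
      rw [ha, ← pow_mul]
      congr 1
      ring
    rw [h1]
    exact hpow 6
  · have h1 : z ^ (12 * r) ≤ a ^ (5 * τ + 3) := by
      rw [ha, ← pow_mul]
      refine pow_le_pow_of_le_one hz.le hz1 ?_
      have h2 : 16 * k * ℓ * (5 * τ + 3) ≤ 16 * k * ℓ * (6 * (τ + 8)) :=
        Nat.mul_le_mul_left _ (by omega)
      have h3 : 16 * k * ℓ * (6 * (τ + 8)) = 12 * (8 * k * ℓ * (τ + 8)) := by ring
      omega
    have h2 : 5 * k * z ^ (12 * r) * (2 * n : ℝ) ^ (5 * τ) ≤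
        5 * k * a ^ (5 * τ + 3) * (2 * n : ℝ) ^ (5 * τ) := by
      refine mul_le_mul_of_nonneg_right (mul_le_mul_of_nonneg_left h1 (by positivity))
        (by positivity)
    refine h2.trans_lt ?_
    have h3 : 5 * k * a ^ (5 * τ + 3) * (2 * n : ℝ) ^ (5 * τ) =
        5 * (a * a) * (a * k) * (a ^ (5 * τ) * (2 * n : ℝ) ^ (5 * τ)) := by ring
    rw [h3]
    have h4 : a * a ≤ 1 / 4 * (1 / 4) := mul_le_mul ha4 ha4 ha0.le (by norm_num)
    have h5 : 5 * (a * a) * (a * k) ≤ 5 * (1 / 4 * (1 / 4)) * 1 :=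
      mul_le_mul (mul_le_mul_of_nonneg_left h4 (by norm_num)) hak (by positivity) (by norm_num)
    have h6 : 5 * (a * a) * (a * k) * (a ^ (5 * τ) * (2 * n : ℝ) ^ (5 * τ)) ≤
        5 * (1 / 4 * (1 / 4)) * 1 * 1 :=
      mul_le_mul h5 (hpow (5 * τ)) (by positivity) (by norm_num)
    linarith

end Pool.Agent.Lib.MP_6b611a_co
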