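import Mathlib

/-! The number of small cuts of a multigraph (Karger's bound). -/

set_option autoImplicit false

open Finset
open scoped Classical

namespace Pool.Agent.Lib.MP_6b611a_co

/-- The number of edges leaving the set `X`, for the multigraph with the ends `s e`, `t e` of the edges `e`. -/
noncomputable def dd {V E : Type} [Fintype E] (s t : E → V) (X : Finset V) : ℕ :=
  (univ.filter fun e => ¬ (s e ∈ X ↔ t e ∈ X)).card

/-- The sum of the degrees. -/
theorem sum_deg {V E : Type} [Fintype V] [Fintype E] (s t : E → V) :
    ∑ v : V, dd s t {v} = 2 * (univ.filter fun e => s e ≠ t e).card := by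
  unfold dd
  simp only [Finset.card_filter]
  rw [Finset.sum_comm, Finset.mul_sum]
  refine Finset.sum_congr rfl fun e _ => ?_
  by_cases h : s e = t e
  · simp [h]
  · have h1 : ∀ v : V, (if ¬ (s e ∈ ({v} : Finset V) ↔ t e ∈ ({v} : Finset V)) then 1 else 0 : ℕ) =
        (if v = s e then 1 else 0) + (if v = t e then 1 else 0) := by
      intro v
      simp only [Finset.mem_singleton]
      by_cases h2 : v = s e
      · have h3 : v ≠ t e := fun h4 => h (h2.symm.trans h4)
        simp [h2, h, Ne.symm h]
      · by_cases h3 : v = t e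
        · simp [h3, h, Ne.symm h]
        · simp [h2, h3, Ne.symm h2, Ne.symm h3]
    rw [Finset.sum_congr rfl fun v _ => h1 v, Finset.sum_add_distrib]
    simp [h]

/-- The contraction of the edge `e`: the vertex `u` is identified with `v`. -/
noncomputable def contr {V : Type} (u v : V) (huv : v ≠ u) (x : V) : {x : V // x ≠ u} :=
  if h : x = u then ⟨v, huv⟩ else ⟨x, h⟩

theorem dd_contr {V E : Type} [Fintype V] [Fintype E] (s t : E → V) (u v : V) (huv : v ≠ u)
    (Y : Finset {x : V // x ≠ u}) :
    dd (fun e => contr u v huv (s e)) (fun e => contr u v huv (t e)) Y =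
      dd s t (univ.filter fun x => contr u v huv x ∈ Y) := by
  unfold dd
  congr 1
  ext e
  simp

theorem karger_aux {E : Type} [Fintype E] (r a : ℕ) (hr : 1 ≤ r) (ha : 1 ≤ a) :
    ∀ (n : ℕ), a ≤ n → ∀ (V : Type) [Fintype V] (s t : E → V), Fintype.card V = n →
      (∀ X : Finset V, X.Nonempty → X ≠ univ → r ≤ dd s t X) →
      ((univ : Finset (Finset V)).filter fun X => 2 * dd s t X ≤ a * r).card ≤
        2 ^ a * n.choose a := by
  intro n hn
  induction n, hn using Nat.le_induction with
  | base =>
    intro V _ s t hV _
    refine (Finset.card_filter_le _ _).trans ?_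
    rw [Finset.card_univ, Fintype.card_finset, hV, Nat.choose_self, mul_one]
  | succ n hn ih =>
    intro V _ s t hV hcut
    set 𝒳 := (univ : Finset (Finset V)).filter fun X => 2 * dd s t X ≤ a * r with h𝒳
    set E' := (univ : Finset E).filter fun e => s e ≠ t e with hE'
    have hdeg : (n + 1) * r ≤ 2 * E'.card := by
      rw [hE', ← sum_deg, ← hV, ← Finset.card_univ, ← smul_eq_mul, ← Finset.sum_const]
      refine Finset.sum_le_sum fun v _ => hcut _ (Finset.singleton_nonempty v) ?_
      intro h
      have h1 : Fintype.card V = 1 := by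
        rw [← Finset.card_univ, ← h, Finset.card_singleton]
      omega
    -- double counting
    have h1 : ∑ X ∈ 𝒳, (E'.filter fun e => (s e ∈ X ↔ t e ∈ X)).card =
        ∑ e ∈ E', (𝒳.filter fun X => (s e ∈ X ↔ t e ∈ X)).card := by
      simp only [Finset.card_filter]
      exact Finset.sum_comm
    have h2 : ∀ X ∈ 𝒳, 2 * E'.card ≤ 2 * (E'.filter fun e => (s e ∈ X ↔ t e ∈ X)).card + a * r := by
      intro X hX
      have h3 : 2 * dd s t X ≤ a * r := (Finset.mem_filter.1 hX).2
      have h4 := Finset.card_filter_add_card_filter_not (s := E') (fun e => (s e ∈ X ↔ t e ∈ X))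
      have h5 : (E'.filter fun e => ¬ (s e ∈ X ↔ t e ∈ X)).card ≤ dd s t X :=
        Finset.card_le_card fun e he => by
          rw [Finset.mem_filter] at he
          exact Finset.mem_filter.2 ⟨Finset.mem_univ _, he.2⟩
      omega
    have h6 : ∀ e ∈ E', (𝒳.filter fun X => (s e ∈ X ↔ t e ∈ X)).card ≤ 2 ^ a * n.choose a := by
      intro e he
      have hne : t e ≠ s e := Ne.symm (Finset.mem_filter.1 he).2
      have hcard : Fintype.card {x : V // x ≠ s e} = n := by
        rw [Fintype.card_subtype_compl, hV, Fintype.card_subtype_eq]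
        rfl
      have h7 := ih {x : V // x ≠ s e} (fun f => contr (s e) (t e) hne (s f))
        (fun f => contr (s e) (t e) hne (t f)) hcard (by
          intro Y hY hY'
          rw [dd_contr]
          apply hcut
          · obtain ⟨y, hy⟩ := hY
            refine ⟨y, Finset.mem_filter.2 ⟨Finset.mem_univ _, ?_⟩⟩
            unfold contr
            rw [dif_neg y.2]
            exact hy
          · intro h
            apply hY'
            ext y
            have h8 : (y : V) ∈ (univ : Finset V).filter fun x => contr (s e) (t e) hne x ∈ Y := by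
              rw [h]
              exact Finset.mem_univ _
            rw [Finset.mem_filter] at h8
            have h9 := h8.2
            unfold contr at h9
            rw [dif_neg y.2] at h9
            simp [h9])
      refine le_trans ?_ h7
      refine Finset.card_le_card_of_injOn
        (fun X => (univ : Finset {x : V // x ≠ s e}).filter fun y : {x : V // x ≠ s e} => y.1 ∈ X) ?_ ?_
      · intro X hX
        rw [Finset.mem_coe, Finset.mem_filter] at hX
        obtain ⟨hX1, hX2⟩ := hX
        have hX3 : 2 * dd s t X ≤ a * r := (Finset.mem_filter.1 hX1).2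
        rw [Finset.mem_coe, Finset.mem_filter]
        refine ⟨Finset.mem_univ _, ?_⟩
        rw [dd_contr]
        have h8 : ((univ : Finset V).filter fun x => contr (s e) (t e) hne x ∈
            (univ : Finset {x : V // x ≠ s e}).filter fun y : {x : V // x ≠ s e} => y.1 ∈ X) = X := by
          ext x
          rw [Finset.mem_filter, Finset.mem_filter]
          unfold contr
          by_cases hx : x = s e
          · rw [dif_pos hx, hx]
            simp [hX2]
          · rw [dif_neg hx]
            simp
        rw [h8]
        exact hX3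
      · intro X hX X' hX' h
        rw [Finset.mem_coe, Finset.mem_filter] at hX hX'
        ext x
        have h8 : ∀ y : {x : V // x ≠ s e}, (y : V) ∈ X ↔ (y : V) ∈ X' := by
          intro y
          have h9 : y ∈ ((univ : Finset {x : V // x ≠ s e}).filter fun y : {x : V // x ≠ s e} => y.1 ∈ X) ↔
              y ∈ ((univ : Finset {x : V // x ≠ s e}).filter fun y : {x : V // x ≠ s e} => y.1 ∈ X') := by
            rw [show ((univ : Finset {x : V // x ≠ s e}).filter fun y : {x : V // x ≠ s e} => y.1 ∈ X) =
              ((univ : Finset {x : V // x ≠ s e}).filter fun y : {x : V // x ≠ s e} => y.1 ∈ X') from h]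
          simpa using h9
        by_cases hx : x = s e
        · rw [hx, hX.2, hX'.2]
          exact h8 ⟨t e, hne⟩
        · exact h8 ⟨x, hx⟩
    have h10 : 𝒳.card * (2 * E'.card) ≤ 2 * (E'.card * (2 ^ a * n.choose a)) + 𝒳.card * (a * r) := by
      have h11 := Finset.sum_le_sum h2
      rw [Finset.sum_const, smul_eq_mul, Finset.sum_add_distrib, Finset.sum_const, smul_eq_mul,
        ← Finset.mul_sum, h1] at h11
      have h12 := Finset.sum_le_sum h6
      rw [Finset.sum_const, smul_eq_mul] at h12
      omega
    -- arithmetic
    have h13 : 𝒳.card * (n + 1 - a) ≤ (n + 1) * (2 ^ a * n.choose a) := by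
      have hQ : 0 < 2 * E'.card := lt_of_lt_of_le (Nat.mul_pos (Nat.succ_pos n) hr) hdeg
      obtain ⟨d, hd⟩ : ∃ d, n + 1 = a + d := ⟨n + 1 - a, by omega⟩
      have hd' : n + 1 - a = d := by omega
      rw [hd']
      set B := 2 ^ a * n.choose a
      set Q := 2 * E'.card
      have h14 : 𝒳.card * Q ≤ Q * B + 𝒳.card * (a * r) := by
        have : 2 * (E'.card * B) = Q * B := by ring
        rw [this] at h10
        exact h10
      have h15 : 𝒳.card * d * Q ≤ (n + 1) * B * Q := by
        have h16 : (n + 1) * (𝒳.card * Q) ≤ (n + 1) * (Q * B + 𝒳.card * (a * r)) :=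
          Nat.mul_le_mul_left _ h14
        have h17 : 𝒳.card * a * ((n + 1) * r) ≤ 𝒳.card * a * Q := Nat.mul_le_mul_left _ hdeg
        have h18 : (n + 1) * (𝒳.card * Q) = 𝒳.card * a * Q + 𝒳.card * d * Q := by
          rw [hd]
          ring
        have h19 : (n + 1) * (Q * B + 𝒳.card * (a * r)) =
            (n + 1) * B * Q + 𝒳.card * a * ((n + 1) * r) := by ring
        omega
      exact Nat.le_of_mul_le_mul_right h15 hQ
    have h20 : (n + 1) * (2 ^ a * n.choose a) = 2 ^ a * (n + 1).choose a * (n + 1 - a) := by
      have := Nat.choose_mul_succ_eq n a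
      calc (n + 1) * (2 ^ a * n.choose a) = 2 ^ a * (n.choose a * (n + 1)) := by ring
        _ = 2 ^ a * ((n + 1).choose a * (n + 1 - a)) := by rw [this]
        _ = _ := by ring
    rw [h20] at h13
    exact Nat.le_of_mul_le_mul_right h13 (by omega)

/-- The number of the cuts with at most `a r / 2` edges is at most `(2 n) ^ a`. -/
theorem karger {V E : Type} [Fintype V] [Fintype E] [Nonempty V] (s t : E → V) (r a : ℕ)
    (hr : 1 ≤ r) (ha : 1 ≤ a) (hcut : ∀ X : Finset V, X.Nonempty → X ≠ univ → r ≤ dd s t X) :
    ((univ : Finset (Finset V)).filter fun X => 2 * dd s t X ≤ a * r).card ≤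
      (2 * Fintype.card V) ^ a := by
  have hn : 1 ≤ Fintype.card V := Fintype.card_pos
  rcases le_total a (Fintype.card V) with h | h
  · refine (karger_aux r a hr ha _ h V s t rfl hcut).trans ?_
    rw [mul_pow]
    exact Nat.mul_le_mul_left _ (Nat.choose_le_pow _ _)
  · refine (Finset.card_filter_le _ _).trans ?_
    rw [Finset.card_univ, Fintype.card_finset]
    calc 2 ^ Fintype.card V ≤ 2 ^ a := Nat.pow_le_pow_right (by norm_num) h
      _ ≤ (2 * Fintype.card V) ^ a := Nat.pow_le_pow_left (by omega) a

end Pool.Agent.Lib.MP_6b611a_co
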