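import Pool.Agent.Lib.MP_6b611a_co.KS.Struct

/-! The union bound. -/

set_option autoImplicit false

open Finset
open scoped Classical

namespace Pool.Agent.Lib.MP_6b611a_co

theorem count_avoid {E : Type} [Fintype E] (k : ℕ) (hk : 1 ≤ k) (j : Fin k) (F : Finset E) :
    (((univ : Finset (E → Fin k)).filter fun c => ∀ e ∈ F, c e ≠ j).card : ℝ) =
      (k : ℝ) ^ Fintype.card E * (1 - 1 / k) ^ F.card := by
  have h1 : ((univ : Finset (E → Fin k)).filter fun c => ∀ e ∈ F, c e ≠ j) =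
      Fintype.piFinset fun e : E => if e ∈ F then univ.erase j else univ := by
    ext c
    rw [Finset.mem_filter, Fintype.mem_piFinset]
    constructor
    · intro h e
      by_cases he : e ∈ F
      · rw [if_pos he]
        exact Finset.mem_erase.2 ⟨h.2 e he, Finset.mem_univ _⟩
      · rw [if_neg he]
        exact Finset.mem_univ _
    · intro h
      refine ⟨Finset.mem_univ _, fun e he => ?_⟩
      have h2 := h e
      rw [if_pos he] at h2
      exact Finset.ne_of_mem_erase h2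
  have h2 : ∀ e : E, ((if e ∈ F then (univ : Finset (Fin k)).erase j else univ).card : ℝ) =
      k * (if e ∈ F then (1 - 1 / k : ℝ) else 1) := by
    intro e
    have hk0 : (k : ℝ) ≠ 0 := by
      have : (0 : ℝ) < k := by exact_mod_cast hk
      exact this.ne'
    by_cases he : e ∈ F
    · rw [if_pos he, if_pos he, Finset.card_erase_of_mem (Finset.mem_univ _), Finset.card_univ,
        Fintype.card_fin, Nat.cast_sub hk]
      field_simp
      simp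
    · rw [if_neg he, if_neg he, Finset.card_univ, Fintype.card_fin, mul_one]
  rw [h1, Fintype.card_piFinset, Nat.cast_prod, Finset.prod_congr rfl fun e _ => h2 e,
    Finset.prod_mul_distrib, Finset.prod_const, Finset.card_univ, Finset.prod_ite,
    Finset.prod_const, Finset.prod_const_one, mul_one]
  congr 3
  ext e
  simp

variable {V E : Type} [Fintype V] [Fintype E]

theorem main (s t : E → V) (hst : ∀ e, s e ≠ t e) {r : ℕ} (hr : 1 ≤ r)
    (hreg : ∀ v, dd s t {v} = r)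
    (hcut : ∀ X : Finset V, X.Nonempty → X ≠ univ → r ≤ dd s t X)
    (heven : Even (Fintype.card V)) (hV : 2 ≤ Fintype.card V)
    {z : ℝ} (hz : 0 < z) (hz1 : z ≤ 1) {k : ℕ} (hk : 1 ≤ k) (hzk : z ^ 16 = 1 - 1 / k)
    (hzr : z ^ r * (2 * Fintype.card V : ℝ) ^ 4 ≤ 1) {E₀ : ℕ} (hE₀ : E₀ ≤ r)
    (hz0 : z ^ (4 * E₀) * (2 * Fintype.card V : ℝ) ^ 6 ≤ 1) (τ : ℕ)
    (hτ : ∀ 𝒩 : Finset (Finset V), (∀ X ∈ 𝒩, Odd X.card ∧ 3 ≤ X.card ∧ dd s t X < r + E₀) →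
      (∀ X ∈ 𝒩, ∀ Y ∈ 𝒩, X ≠ Y → Disjoint X Y) → 𝒩.card ≤ τ)
    (hfin : 5 * k * z ^ (12 * r) * (2 * Fintype.card V : ℝ) ^ (5 * τ) < 1) :
    ∃ c : E → Fin k, ∀ j, ∃ N : Finset E, N ⊆ univ.filter (fun e => c e = j) ∧
      ∀ v, ∃! e, e ∈ N ∧ v ∈ s(s e, t e) := by
  by_contra hcon
  push Not at hcon
  have hVne : Nonempty V := Fintype.card_pos_iff.1 (by omega)
  have huniv : ∀ X : Finset V, Odd X.card → X ≠ univ := by
    intro X hX h
    rw [h, Finset.card_univ] at hX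
    exact (Nat.not_even_iff_odd.2 hX) heven
  have hodd : ∀ X : Finset V, Odd X.card → r ≤ dd s t X := by
    intro X hX
    exact hcut X (Finset.card_pos.1 hX.pos) (huniv X hX)
  set 𝔉 : Finset (Finset (Finset V)) := univ.filter fun 𝒩 =>
    (∀ X ∈ 𝒩, Odd X.card ∧ 3 ≤ X.card) ∧ (∀ X ∈ 𝒩, ∀ Y ∈ 𝒩, X ≠ Y → Disjoint X Y) with h𝔉
  set 𝒮 : Finset (Finset V) → Finset (Finset V) := fun 𝒩 => univ.filter fun S =>
    (∀ X ∈ 𝒩, Disjoint X S) ∧
      2 * r + ∑ X ∈ 𝒩, (dd s t X - r) + 2 * inn s t S ≤ 2 * (FF s t S 𝒩).card with h𝒮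
  have h1 : (univ : Finset (E → Fin k)) ⊆ (univ : Finset (Fin k)).biUnion fun j =>
      𝔉.biUnion fun 𝒩 => (𝒮 𝒩).biUnion fun S =>
        univ.filter fun c : E → Fin k => ∀ e ∈ FF s t S 𝒩, c e ≠ j := by
    intro c _
    obtain ⟨j, hj⟩ := hcon c
    obtain ⟨S, 𝒩, h2, h3, h4, h5, h6⟩ := struct s t hst hreg hodd heven
      (univ.filter (fun e => c e = j)) (fun ⟨N, hN, hN2⟩ => by
        obtain ⟨v, hv⟩ := hj N hN
        exact hv (hN2 v))
    rw [Finset.mem_biUnion]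
    refine ⟨j, Finset.mem_univ _, ?_⟩
    rw [Finset.mem_biUnion]
    refine ⟨𝒩, Finset.mem_filter.2 ⟨Finset.mem_univ _, h2, h3⟩, ?_⟩
    rw [Finset.mem_biUnion]
    refine ⟨S, Finset.mem_filter.2 ⟨Finset.mem_univ _, h4, h6⟩, ?_⟩
    refine Finset.mem_filter.2 ⟨Finset.mem_univ _, fun e he hc => h5 e he ?_⟩
    exact Finset.mem_filter.2 ⟨Finset.mem_univ _, hc⟩
  have h2 : (k : ℝ) ^ Fintype.card E ≤ ∑ j : Fin k, ∑ 𝒩 ∈ 𝔉, ∑ S ∈ 𝒮 𝒩,
      (((univ : Finset (E → Fin k)).filter fun c => ∀ e ∈ FF s t S 𝒩, c e ≠ j).card : ℝ) := by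
    have h3 : (univ : Finset (E → Fin k)).card ≤ ∑ j : Fin k, ∑ 𝒩 ∈ 𝔉, ∑ S ∈ 𝒮 𝒩,
        ((univ : Finset (E → Fin k)).filter fun c => ∀ e ∈ FF s t S 𝒩, c e ≠ j).card := by
      refine (Finset.card_le_card h1).trans (Finset.card_biUnion_le.trans ?_)
      refine Finset.sum_le_sum fun j _ => Finset.card_biUnion_le.trans ?_
      exact Finset.sum_le_sum fun 𝒩 _ => Finset.card_biUnion_le
    rw [Finset.card_univ, Fintype.card_fun, Fintype.card_fin] at h3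
    exact_mod_cast h3
  have h3 : ∀ j : Fin k, ∑ 𝒩 ∈ 𝔉, ∑ S ∈ 𝒮 𝒩,
      (((univ : Finset (E → Fin k)).filter fun c => ∀ e ∈ FF s t S 𝒩, c e ≠ j).card : ℝ) ≤
      (k : ℝ) ^ Fintype.card E * z ^ (12 * r) * (5 / 2) * (2 * (2 * Fintype.card V : ℝ) ^ (5 * τ)) := by
    intro j
    have h4 : ∀ 𝒩 ∈ 𝔉, ∑ S ∈ 𝒮 𝒩,
        (((univ : Finset (E → Fin k)).filter fun c => ∀ e ∈ FF s t S 𝒩, c e ≠ j).card : ℝ) ≤
        ((k : ℝ) ^ Fintype.card E * z ^ (12 * r) * (5 / 2)) * z ^ (4 * ∑ X ∈ 𝒩, (dd s t X - r)) := by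
      intro 𝒩 h𝒩
      have h5 : ∀ S ∈ 𝒮 𝒩,
          (((univ : Finset (E → Fin k)).filter fun c => ∀ e ∈ FF s t S 𝒩, c e ≠ j).card : ℝ) ≤
          ((k : ℝ) ^ Fintype.card E * z ^ (12 * r) * z ^ (4 * ∑ X ∈ 𝒩, (dd s t X - r))) *
            z ^ (4 * (inn s t S + (FF s t S 𝒩).card)) := by
        intro S hS
        rw [count_avoid k hk, ← hzk, ← pow_mul, mul_assoc, mul_assoc, ← pow_add, ← pow_add]
        refine mul_le_mul_of_nonneg_left ?_ (by positivity)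
        refine pow_le_pow_of_le_one hz.le hz1 ?_
        have h6 := (Finset.mem_filter.1 hS).2.2
        omega
      refine (Finset.sum_le_sum h5).trans ?_
      rw [← Finset.mul_sum]
      have h6 := sum_S hr hcut hV hz hz1 hzr 𝒩 (𝒮 𝒩) (fun S hS => (Finset.mem_filter.1 hS).2.1)
      have h7 : 0 ≤ (k : ℝ) ^ Fintype.card E * z ^ (12 * r) *
          z ^ (4 * ∑ X ∈ 𝒩, (dd s t X - r)) := by positivity
      calc _ ≤ ((k : ℝ) ^ Fintype.card E * z ^ (12 * r) *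
            z ^ (4 * ∑ X ∈ 𝒩, (dd s t X - r))) * (5 / 2) := mul_le_mul_of_nonneg_left h6 h7
        _ = _ := by ring
    refine (Finset.sum_le_sum h4).trans ?_
    rw [← Finset.mul_sum]
    refine mul_le_mul_of_nonneg_left ?_ (by positivity)
    refine sum_fam hr hcut hV hz hz1 hzr hE₀ hz0 τ 𝔉 fun 𝒩 h𝒩 => ?_
    have h5 := (Finset.mem_filter.1 h𝒩).2
    refine ⟨fun X hX => ⟨Finset.card_pos.1 (h5.1 X hX).1.pos, huniv X (h5.1 X hX).1⟩, ?_⟩
    refine hτ _ (fun X hX => ?_) (fun X hX Y hY => ?_)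
    · rw [Finset.mem_filter] at hX
      exact ⟨(h5.1 X hX.1).1, (h5.1 X hX.1).2, hX.2⟩
    · exact h5.2 X (Finset.mem_filter.1 hX).1 Y (Finset.mem_filter.1 hY).1
  have h4 := h2.trans (Finset.sum_le_sum fun j _ => h3 j)
  rw [Finset.sum_const, Finset.card_univ, Fintype.card_fin, nsmul_eq_mul] at h4
  have h5 : (0 : ℝ) < (k : ℝ) ^ Fintype.card E := by
    have : (0 : ℝ) < k := by exact_mod_cast hk
    positivity
  have h6 : (k : ℝ) * ((k : ℝ) ^ Fintype.card E * z ^ (12 * r) * (5 / 2) *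
      (2 * (2 * Fintype.card V : ℝ) ^ (5 * τ))) =
      (k : ℝ) ^ Fintype.card E * (5 * k * z ^ (12 * r) * (2 * Fintype.card V : ℝ) ^ (5 * τ)) := by
    ring
  rw [h6] at h4
  nlinarith

end Pool.Agent.Lib.MP_6b611a_co
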