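import Pool.Agent.Lib.MP_6b611a_co.KS.Tutte

/-! The structure of a set of edges without a perfect matching. -/

set_option autoImplicit false

open Finset
open scoped Classical

namespace Pool.Agent.Lib.MP_6b611a_co

variable {V E : Type} [Fintype V] [Fintype E]

/-- The simple graph of the set `C` of edges. -/
def gr (s t : E → V) (C : Finset E) : SimpleGraph V where
  Adj u v := u ≠ v ∧ ∃ e ∈ C, s(s e, t e) = s(u, v)
  symm := ⟨fun u v h => ⟨h.1.symm, by
    obtain ⟨e, he, h2⟩ := h.2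
    exact ⟨e, he, by rw [h2, Sym2.eq_swap]⟩⟩⟩
  loopless := ⟨fun u h => h.1 rfl⟩

/-- A perfect matching of the simple graph gives one of the multigraph. -/
theorem pm_of_gr (s t : E → V) (C : Finset E) (M : (gr s t C).Subgraph) (hM : M.IsPerfectMatching) :
    ∃ N : Finset E, N ⊆ C ∧ ∀ v, ∃! e, e ∈ N ∧ v ∈ s(s e, t e) := by
  have h1 : ∀ v, ∃! w, M.Adj v w := fun v => SimpleGraph.Subgraph.isPerfectMatching_iff.1 hM v
  choose p hp hpu using h1
  simp only at hpu
  have hpp : ∀ v, p (p v) = v := by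
    intro v
    exact (hpu (p v) v (hp v).symm).symm
  have h2 : ∀ v, ∃ e ∈ C, s(s e, t e) = s(v, p v) := fun v => (M.adj_sub (hp v)).2
  let ch : Sym2 V → E := fun z =>
    if h : ∃ e ∈ C, s(s e, t e) = z then h.choose else (h2 (Quot.out z).1).choose
  have hch : ∀ v, ch s(v, p v) ∈ C ∧ s(s (ch s(v, p v)), t (ch s(v, p v))) = s(v, p v) := by
    intro v
    have h3 : ch s(v, p v) = (h2 v).choose := by
      simp only [ch]
      rw [dif_pos (h2 v)]
    rw [h3]
    exact (h2 v).choose_spec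
  refine ⟨univ.image fun v => ch s(v, p v), ?_, ?_⟩
  · intro e he
    obtain ⟨v, _, rfl⟩ := Finset.mem_image.1 he
    exact (hch v).1
  · intro v
    refine ⟨ch s(v, p v), ⟨Finset.mem_image_of_mem _ (Finset.mem_univ _), ?_⟩, ?_⟩
    · rw [(hch v).2]
      exact Sym2.mem_mk_left _ _
    · rintro e ⟨he, hv⟩
      obtain ⟨w, _, rfl⟩ := Finset.mem_image.1 he
      rw [(hch w).2, Sym2.mem_iff] at hv
      rcases hv with rfl | rfl
      · rfl
      · rw [hpp, Sym2.eq_swap]

theorem part_count (𝒬 : Finset (Finset V))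
    (hdis : ∀ X ∈ 𝒬, ∀ Y ∈ 𝒬, X ≠ Y → Disjoint X Y) (a : V) :
    (𝒬.filter fun X => a ∈ X).card ≤ 1 := by
  rw [Finset.card_le_one]
  intro X hX Y hY
  rw [Finset.mem_filter] at hX hY
  by_contra hne
  exact Finset.disjoint_left.1 (hdis X hX.1 Y hY.1 hne) hX.2 hY.2

theorem edge_count (a b : V) (hab : a ≠ b) (S : Finset V) (𝒬 : Finset (Finset V))
    (hS : ∀ X ∈ 𝒬, Disjoint X S) (hdis : ∀ X ∈ 𝒬, ∀ Y ∈ 𝒬, X ≠ Y → Disjoint X Y) :
    (∑ X ∈ 𝒬, if ¬ (a ∈ X ↔ b ∈ X) then 1 else 0) + 2 * (if a ∈ S ∧ b ∈ S then 1 else 0) ≤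
      (∑ v ∈ S, if ¬ (a ∈ ({v} : Finset V) ↔ b ∈ ({v} : Finset V)) then 1 else 0) +
        2 * (if a ∉ S ∧ b ∉ S ∧ ∀ X ∈ 𝒬, ¬ (a ∈ X ∧ b ∈ X) then 1 else 0) := by
  rw [← Finset.card_filter, ← Finset.card_filter]
  have hA := part_count 𝒬 hdis a
  have hB := part_count 𝒬 hdis b
  have hAB : (𝒬.filter fun X => ¬ (a ∈ X ↔ b ∈ X)).card ≤
      (𝒬.filter fun X => a ∈ X).card + (𝒬.filter fun X => b ∈ X).card := by
    refine (Finset.card_le_card ?_).trans (Finset.card_union_le _ _)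
    intro X hX
    rw [Finset.mem_filter] at hX
    rw [Finset.mem_union, Finset.mem_filter, Finset.mem_filter]
    tauto
  have hSA : a ∈ S → (𝒬.filter fun X => a ∈ X).card = 0 := by
    intro h
    rw [Finset.card_eq_zero, Finset.filter_eq_empty_iff]
    intro X hX ha
    exact Finset.disjoint_left.1 (hS X hX) ha h
  have hSB : b ∈ S → (𝒬.filter fun X => b ∈ X).card = 0 := by
    intro h
    rw [Finset.card_eq_zero, Finset.filter_eq_empty_iff]
    intro X hX ha
    exact Finset.disjoint_left.1 (hS X hX) ha h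
  have hVA : a ∈ S → {a} ⊆ S.filter fun v => ¬ (a ∈ ({v} : Finset V) ↔ b ∈ ({v} : Finset V)) := by
    intro h
    rw [Finset.singleton_subset_iff, Finset.mem_filter]
    refine ⟨h, ?_⟩
    simp only [Finset.mem_singleton]
    simp [Ne.symm hab]
  have hVB : b ∈ S → {b} ⊆ S.filter fun v => ¬ (a ∈ ({v} : Finset V) ↔ b ∈ ({v} : Finset V)) := by
    intro h
    rw [Finset.singleton_subset_iff, Finset.mem_filter]
    refine ⟨h, ?_⟩
    simp only [Finset.mem_singleton]
    simp [hab]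
  by_cases ha : a ∈ S
  · have h1 := hSA ha
    by_cases hb : b ∈ S
    · have h2 := hSB hb
      have h3 : ({a, b} : Finset V).card ≤
          (S.filter fun v => ¬ (a ∈ ({v} : Finset V) ↔ b ∈ ({v} : Finset V))).card := by
        refine Finset.card_le_card ?_
        rw [Finset.insert_eq]
        exact Finset.union_subset (hVA ha) (hVB hb)
      rw [Finset.card_pair hab] at h3
      rw [if_pos ⟨ha, hb⟩]
      omega
    · have h3 := Finset.card_le_card (hVA ha)
      rw [Finset.card_singleton] at h3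
      rw [if_neg (fun h => hb h.2)]
      omega
  · by_cases hb : b ∈ S
    · have h2 := hSB hb
      have h3 := Finset.card_le_card (hVB hb)
      rw [Finset.card_singleton] at h3
      rw [if_neg (fun h => ha h.1)]
      omega
    · rw [if_neg (fun h => ha h.1)]
      by_cases hX : ∀ X ∈ 𝒬, ¬ (a ∈ X ∧ b ∈ X)
      · rw [if_pos ⟨ha, hb, hX⟩]
        omega
      · push Not at hX
        obtain ⟨X, hX, haX, hbX⟩ := hX
        have h4 : (𝒬.filter fun X => ¬ (a ∈ X ↔ b ∈ X)).card = 0 := by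
          rw [Finset.card_eq_zero, Finset.filter_eq_empty_iff]
          intro Y hY hc
          apply hc
          by_cases hXY : X = Y
          · rw [← hXY]
            tauto
          · have h5 := Finset.disjoint_left.1 (hdis X hX Y hY hXY)
            have h6 := h5 haX
            have h7 := h5 hbX
            tauto
        omega

/-- The number of edges between different parts. -/
theorem deg_count (s t : E → V) (hst : ∀ e, s e ≠ t e) (S : Finset V) (𝒬 : Finset (Finset V))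
    (hS : ∀ X ∈ 𝒬, Disjoint X S) (hdis : ∀ X ∈ 𝒬, ∀ Y ∈ 𝒬, X ≠ Y → Disjoint X Y) :
    ∑ X ∈ 𝒬, dd s t X + 2 * inn s t S ≤ ∑ v ∈ S, dd s t {v} + 2 * (FF s t S 𝒬).card := by
  unfold dd inn FF
  simp only [Finset.card_filter]
  rw [Finset.sum_comm, Finset.sum_comm (s := S), Finset.mul_sum, Finset.mul_sum,
    ← Finset.sum_add_distrib, ← Finset.sum_add_distrib]
  exact Finset.sum_le_sum fun e _ => edge_count (s e) (t e) (hst e) S 𝒬 hS hdis

/-- The structure of a set of edges without a perfect matching. -/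
theorem struct (s t : E → V) (hst : ∀ e, s e ≠ t e) {r : ℕ} (hreg : ∀ v, dd s t {v} = r)
    (hodd : ∀ X : Finset V, Odd X.card → r ≤ dd s t X) (heven : Even (Fintype.card V))
    (C : Finset E) (hC : ¬ ∃ N : Finset E, N ⊆ C ∧ ∀ v, ∃! e, e ∈ N ∧ v ∈ s(s e, t e)) :
    ∃ (S : Finset V) (𝒩 : Finset (Finset V)), (∀ X ∈ 𝒩, Odd X.card ∧ 3 ≤ X.card) ∧
      (∀ X ∈ 𝒩, ∀ Y ∈ 𝒩, X ≠ Y → Disjoint X Y) ∧ (∀ X ∈ 𝒩, Disjoint X S) ∧
      (∀ e ∈ FF s t S 𝒩, e ∉ C) ∧
      2 * r + ∑ X ∈ 𝒩, (dd s t X - r) + 2 * inn s t S ≤ 2 * (FF s t S 𝒩).card := by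
  obtain ⟨S, 𝒬, h1, h2, h3, h4, h5, h6⟩ := tutte_parts (gr s t C) heven
    (fun ⟨M, hM⟩ => hC (pm_of_gr s t C M hM))
  have hFF : FF s t S (𝒬.filter fun X => 3 ≤ X.card) = FF s t S 𝒬 := by
    ext e
    unfold FF
    rw [Finset.mem_filter, Finset.mem_filter]
    refine and_congr_right fun _ => and_congr_right fun _ => and_congr_right fun _ => ?_
    constructor
    · intro h X hX hXe
      by_cases h7 : 3 ≤ X.card
      · exact h X (Finset.mem_filter.2 ⟨hX, h7⟩) hXe
      · have h8 : X.card ≤ 1 := by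
          obtain ⟨a, ha⟩ := h2 X hX
          omega
        exact hst e (Finset.card_le_one.1 h8 _ hXe.1 _ hXe.2)
    · intro h X hX
      exact h X (Finset.mem_filter.1 hX).1
  refine ⟨S, 𝒬.filter fun X => 3 ≤ X.card, ?_, ?_, ?_, ?_, ?_⟩
  · intro X hX
    exact ⟨h2 X (Finset.mem_filter.1 hX).1, (Finset.mem_filter.1 hX).2⟩
  · intro X hX Y hY
    exact h4 X (Finset.mem_filter.1 hX).1 Y (Finset.mem_filter.1 hY).1
  · intro X hX
    exact h3 X (Finset.mem_filter.1 hX).1
  · rw [hFF]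
    intro e he heC
    unfold FF at he
    obtain ⟨_, ha, hb, hX⟩ := Finset.mem_filter.1 he
    obtain ⟨X, hX1, hX2⟩ := h5 _ ha
    exact hX X hX1 ⟨hX2, h6 X hX1 (s e) (t e) ⟨hst e, e, heC, rfl⟩ hb hX2⟩
  · rw [hFF]
    have h7 := deg_count s t hst S 𝒬 h3 h4
    have h8 : ∑ v ∈ S, dd s t {v} = S.card * r := by
      rw [Finset.sum_congr rfl fun v _ => hreg v, Finset.sum_const, smul_eq_mul]
    have h9 : 𝒬.card * r + ∑ X ∈ 𝒬, (dd s t X - r) = ∑ X ∈ 𝒬, dd s t X := by
      rw [← smul_eq_mul, ← Finset.sum_const, ← Finset.sum_add_distrib]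
      refine Finset.sum_congr rfl fun X hX => ?_
      have := hodd X (h2 X hX)
      omega
    have h10 : ∑ X ∈ 𝒬.filter (fun X => 3 ≤ X.card), (dd s t X - r) ≤ ∑ X ∈ 𝒬, (dd s t X - r) :=
      Finset.sum_le_sum_of_subset (Finset.filter_subset _ _)
    have h11 : (S.card + 2) * r ≤ 𝒬.card * r := Nat.mul_le_mul_right _ h1
    rw [Nat.add_mul] at h11
    omega

end Pool.Agent.Lib.MP_6b611a_co
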