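import Pool.Agent.Lib.MP_6b611a_co.KS.Karger

/-! Sums over the cuts of a multigraph. -/

set_option autoImplicit false

open Finset
open scoped Classical

namespace Pool.Agent.Lib.MP_6b611a_co

theorem geo (A : ℕ) : ∑ a ∈ range (A + 2), (if a < 2 then (0 : ℝ) else (1 / 4) ^ a) =
    1 / 12 - 4 / 3 * (1 / 4) ^ (A + 2) := by
  induction A with
  | zero =>
    rw [Finset.sum_range_succ, Finset.sum_range_succ, Finset.sum_range_zero]
    norm_num
  | succ A ih =>
    rw [Finset.sum_range_succ, ih, if_neg (by omega)]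
    ring

theorem geo_le (A : ℕ) : ∑ a ∈ range (A + 2), (if a < 2 then (0 : ℝ) else (1 / 4) ^ a) ≤ 1 / 12 := by
  rw [geo]
  have : (0 : ℝ) < (1 / 4) ^ (A + 2) := by positivity
  linarith

theorem few_le (A : ℕ) : ∑ a ∈ range A, (if a = 2 ∨ a = 3 ∨ a = 4 then (1 / 16 : ℝ) else 0) ≤ 3 / 16 := by
  rw [← Finset.sum_filter, Finset.sum_const, nsmul_eq_mul]
  have h1 : ((range A).filter fun a => a = 2 ∨ a = 3 ∨ a = 4).card ≤ 3 := by
    have h2 : ((range A).filter fun a => a = 2 ∨ a = 3 ∨ a = 4) ⊆ {2, 3, 4} := by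
      intro a ha
      rw [Finset.mem_filter] at ha
      simp only [Finset.mem_insert, Finset.mem_singleton]
      exact ha.2
    exact (Finset.card_le_card h2).trans (by decide)
  have h3 : (((range A).filter fun a => a = 2 ∨ a = 3 ∨ a = 4).card : ℝ) ≤ 3 := by exact_mod_cast h1
  nlinarith

variable {V E : Type} [Fintype V] [Fintype E] [Nonempty V] {s t : E → V} {r : ℕ}

/-- Sums over cuts, by blocks. -/
theorem block_sum (hr : 1 ≤ r) (hcut : ∀ X : Finset V, X.Nonempty → X ≠ univ → r ≤ dd s t X)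
    (𝒟 : Finset (Finset V)) (h𝒟 : ∀ X ∈ 𝒟, X.Nonempty ∧ X ≠ univ) (w : Finset V → ℝ) (g : ℕ → ℝ)
    (hg : ∀ a, 0 ≤ g a)
    (hw : ∀ X ∈ 𝒟, ∀ a, 2 ≤ a → 2 * dd s t X ≤ a * r → (a - 1) * r < 2 * dd s t X →
      w X * (2 * Fintype.card V : ℝ) ^ a ≤ g a) :
    ∃ A, ∑ X ∈ 𝒟, w X ≤ ∑ a ∈ range (A + 2), g a := by
  have hN : (0 : ℝ) < 2 * Fintype.card V := by
    have : 0 < Fintype.card V := Fintype.card_pos
    have h2 : (0 : ℝ) < Fintype.card V := by exact_mod_cast this
    linarith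
  have key : ∀ X : Finset V, X ∈ 𝒟 → 2 ≤ (2 * dd s t X + r - 1) / r ∧
      2 * dd s t X ≤ (2 * dd s t X + r - 1) / r * r ∧
      ((2 * dd s t X + r - 1) / r - 1) * r < 2 * dd s t X := by
    intro X hX
    have h1 := hcut X (h𝒟 X hX).1 (h𝒟 X hX).2
    set q := (2 * dd s t X + r - 1) / r with hq
    have h2 : q * r ≤ 2 * dd s t X + r - 1 := Nat.div_mul_le_self _ _
    have h3 : 2 * dd s t X + r - 1 < (q + 1) * r := by
      have := Nat.lt_mul_div_succ (2 * dd s t X + r - 1) hr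
      rw [mul_comm (q + 1) r]
      exact this
    have h4 : (q + 1) * r = q * r + r := by ring
    have h5 : 2 ≤ q := by
      rw [hq, Nat.le_div_iff_mul_le hr]
      omega
    have h6 : (q - 1) * r = q * r - r := by
      rw [Nat.sub_mul, one_mul]
    refine ⟨h5, by omega, ?_⟩
    rw [h6]
    omega
  refine ⟨𝒟.sup fun X => (2 * dd s t X + r - 1) / r, ?_⟩
  set A := 𝒟.sup fun X => (2 * dd s t X + r - 1) / r with hA
  have h1 : ∀ X ∈ 𝒟, (2 * dd s t X + r - 1) / r ∈ range (A + 2) := by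
    intro X hX
    rw [Finset.mem_range]
    have : (2 * dd s t X + r - 1) / r ≤ A := Finset.le_sup (f := fun X => (2 * dd s t X + r - 1) / r) hX
    omega
  rw [← Finset.sum_fiberwise_of_maps_to h1]
  refine Finset.sum_le_sum fun a _ => ?_
  rcases (𝒟.filter fun X => (2 * dd s t X + r - 1) / r = a).eq_empty_or_nonempty with he | ⟨X₀, hX₀⟩
  · rw [he, Finset.sum_empty]
    exact hg a
  have ha : 2 ≤ a := by
    rw [Finset.mem_filter] at hX₀
    rw [← hX₀.2]
    exact (key X₀ hX₀.1).1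
  have h2 : ∀ X ∈ 𝒟.filter (fun X => (2 * dd s t X + r - 1) / r = a),
      w X ≤ g a / (2 * Fintype.card V : ℝ) ^ a := by
    intro X hX
    rw [Finset.mem_filter] at hX
    rw [le_div_iff₀ (pow_pos hN a)]
    have := key X hX.1
    rw [hX.2] at this
    exact hw X hX.1 a ha this.2.1 this.2.2
  refine (Finset.sum_le_card_nsmul _ _ _ h2).trans ?_
  rw [nsmul_eq_mul]
  have h3 : (𝒟.filter fun X => (2 * dd s t X + r - 1) / r = a).card ≤ (2 * Fintype.card V) ^ a := by
    refine le_trans (Finset.card_le_card ?_) (karger s t r a hr (by omega) hcut)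
    intro X hX
    rw [Finset.mem_filter] at hX ⊢
    have := key X hX.1
    rw [hX.2] at this
    exact ⟨Finset.mem_univ _, this.2.1⟩
  have h4 : ((𝒟.filter fun X => (2 * dd s t X + r - 1) / r = a).card : ℝ) ≤
      (2 * Fintype.card V : ℝ) ^ a := by exact_mod_cast h3
  calc ((𝒟.filter fun X => (2 * dd s t X + r - 1) / r = a).card : ℝ) *
        (g a / (2 * Fintype.card V : ℝ) ^ a)
      ≤ (2 * Fintype.card V : ℝ) ^ a * (g a / (2 * Fintype.card V : ℝ) ^ a) :=
        mul_le_mul_of_nonneg_right h4 (div_nonneg (hg a) (pow_nonneg hN.le a))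
    _ = g a := by
        rw [mul_div_cancel₀]
        exact (pow_pos hN a).ne'

/-- The sum over all cuts. -/
theorem sum_all (hr : 1 ≤ r) (hcut : ∀ X : Finset V, X.Nonempty → X ≠ univ → r ≤ dd s t X)
    (hV : 2 ≤ Fintype.card V) {z : ℝ} (hz : 0 < z) (hz1 : z ≤ 1)
    (hzr : z ^ r * (2 * Fintype.card V : ℝ) ^ 4 ≤ 1) :
    ∑ X ∈ (univ : Finset (Finset V)).filter (fun X => X.Nonempty ∧ X ≠ univ),
      z ^ (2 * dd s t X) ≤ 1 / 2 := by
  have hN : (4 : ℝ) ≤ 2 * Fintype.card V := by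
    have h2 : (2 : ℝ) ≤ Fintype.card V := by exact_mod_cast hV
    linarith
  set N : ℝ := 2 * Fintype.card V with hNdef
  have hN0 : (0 : ℝ) < N := by linarith
  obtain ⟨A, hA⟩ := block_sum (s := s) (t := t) hr hcut
    ((univ : Finset (Finset V)).filter (fun X => X.Nonempty ∧ X ≠ univ))
    (fun X hX => (Finset.mem_filter.1 hX).2) (fun X => z ^ (2 * dd s t X))
    (fun a => if a < 2 then (0 : ℝ) else (1 / 4) ^ a) (fun a => by split_ifs <;> positivity) (by
      intro X _ a ha h1 h2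
      rw [if_neg (by omega)]
      have h3 : z ^ (2 * dd s t X) ≤ z ^ ((a - 1) * r) := pow_le_pow_of_le_one hz.le hz1 h2.le
      have h4 : z ^ r ≤ (1 / N) ^ 4 := by
        rw [one_div, inv_pow, le_inv_comm₀ (pow_pos hz r) (pow_pos hN0 4), ← one_div,
          le_div_iff₀ (pow_pos hz r), mul_comm]
        exact hzr
      have h5 : z ^ ((a - 1) * r) ≤ (1 / N) ^ (4 * (a - 1)) := by
        rw [mul_comm (a - 1) r, pow_mul, pow_mul]
        exact pow_le_pow_left₀ (pow_nonneg hz.le _) h4 _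
      have hq1 : 1 / N ≤ 1 / 4 := one_div_le_one_div_of_le (by norm_num) hN
      have hq0 : 0 < 1 / N := by positivity
      have h6 : (1 / N) ^ (4 * (a - 1)) * N ^ a ≤ (1 / 4) ^ a := by
        have h7 : 4 * (a - 1) = (3 * a - 4) + a := by omega
        rw [h7, pow_add, mul_assoc, ← mul_pow, one_div_mul_cancel hN0.ne', one_pow, mul_one]
        calc (1 / N) ^ (3 * a - 4) ≤ (1 / N) ^ a :=
              pow_le_pow_of_le_one hq0.le (hq1.trans (by norm_num)) (by omega)
          _ ≤ (1 / 4) ^ a := pow_le_pow_left₀ hq0.le hq1 a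
      exact (mul_le_mul_of_nonneg_right (h3.trans h5) (pow_nonneg hN0.le a)).trans h6)
  exact hA.trans ((geo_le A).trans (by norm_num))

/-- The sum over the cuts which are not near-tight. -/
theorem sum_far (hr : 1 ≤ r) (hcut : ∀ X : Finset V, X.Nonempty → X ≠ univ → r ≤ dd s t X)
    (hV : 2 ≤ Fintype.card V) {z : ℝ} (hz : 0 < z) (hz1 : z ≤ 1)
    (hzr : z ^ r * (2 * Fintype.card V : ℝ) ^ 4 ≤ 1) {E₀ : ℕ}
    (hz0 : z ^ (4 * E₀) * (2 * Fintype.card V : ℝ) ^ 6 ≤ 1) :
    ∑ X ∈ (univ : Finset (Finset V)).filter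
        (fun X => (X.Nonempty ∧ X ≠ univ) ∧ r + E₀ ≤ dd s t X),
      z ^ (4 * (dd s t X - r)) ≤ 1 / 2 := by
  have hN : (4 : ℝ) ≤ 2 * Fintype.card V := by
    have h2 : (2 : ℝ) ≤ Fintype.card V := by exact_mod_cast hV
    linarith
  set N : ℝ := 2 * Fintype.card V with hNdef
  have hN0 : (0 : ℝ) < N := by linarith
  have hq1 : 1 / N ≤ 1 / 4 := one_div_le_one_div_of_le (by norm_num) hN
  have hq0 : 0 < 1 / N := by positivity
  have h4 : z ^ r ≤ (1 / N) ^ 4 := by
    rw [one_div, inv_pow, le_inv_comm₀ (pow_pos hz r) (pow_pos hN0 4), ← one_div,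
      le_div_iff₀ (pow_pos hz r), mul_comm]
    exact hzr
  have h40 : z ^ (4 * E₀) ≤ (1 / N) ^ 6 := by
    rw [one_div, inv_pow, le_inv_comm₀ (pow_pos hz _) (pow_pos hN0 6), ← one_div,
      le_div_iff₀ (pow_pos hz _), mul_comm]
    exact hz0
  obtain ⟨A, hA⟩ := block_sum (s := s) (t := t) hr hcut
    ((univ : Finset (Finset V)).filter (fun X => (X.Nonempty ∧ X ≠ univ) ∧ r + E₀ ≤ dd s t X))
    (fun X hX => (Finset.mem_filter.1 hX).2.1) (fun X => z ^ (4 * (dd s t X - r)))
    (fun a => (if a = 2 ∨ a = 3 ∨ a = 4 then (1 / 16 : ℝ) else 0) +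
      (if a < 2 then (0 : ℝ) else (1 / 4) ^ a)) (fun a => by split_ifs <;> positivity) (by
      intro X hX a ha h1 h2
      have hfar := (Finset.mem_filter.1 hX).2.2
      by_cases h5 : a = 2 ∨ a = 3 ∨ a = 4
      · rw [if_pos h5]
        have h6 : z ^ (4 * (dd s t X - r)) ≤ (1 / N) ^ 6 :=
          (pow_le_pow_of_le_one hz.le hz1 (by omega)).trans h40
        have h7 : (1 / N) ^ 6 * N ^ a ≤ 1 / 16 := by
          obtain ⟨b, hb⟩ : ∃ b, 6 = b + a := ⟨6 - a, by omega⟩
          rw [hb, pow_add, mul_assoc, ← mul_pow, one_div_mul_cancel hN0.ne', one_pow, mul_one]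
          calc (1 / N) ^ b ≤ (1 / N) ^ 2 :=
                pow_le_pow_of_le_one hq0.le (hq1.trans (by norm_num)) (by omega)
            _ ≤ (1 / 4) ^ 2 := pow_le_pow_left₀ hq0.le hq1 2
            _ = 1 / 16 := by norm_num
        have h8 := (mul_le_mul_of_nonneg_right h6 (pow_nonneg hN0.le a)).trans h7
        have h9 : (0 : ℝ) ≤ (if a < 2 then (0 : ℝ) else (1 / 4) ^ a) := by split_ifs <;> positivity
        linarith
      · rw [if_neg h5, zero_add, if_neg (by omega)]
        have h6 : (2 * a - 6) * r ≤ 4 * (dd s t X - r) := by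
          have h7 : (a - 1) * r = a * r - r := by rw [Nat.sub_mul, one_mul]
          have h8 : (2 * a - 6) * r = 2 * (a * r) - 6 * r := by
            rw [Nat.sub_mul]
            congr 1
            ring
          omega
        have h9 : z ^ (4 * (dd s t X - r)) ≤ (1 / N) ^ (4 * (2 * a - 6)) := by
          refine (pow_le_pow_of_le_one hz.le hz1 h6).trans ?_
          rw [mul_comm (2 * a - 6) r, pow_mul, pow_mul]
          exact pow_le_pow_left₀ (pow_nonneg hz.le _) h4 _
        have h10 : (1 / N) ^ (4 * (2 * a - 6)) * N ^ a ≤ (1 / 4) ^ a := by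
          have h7 : 4 * (2 * a - 6) = (7 * a - 24) + a := by omega
          rw [h7, pow_add, mul_assoc, ← mul_pow, one_div_mul_cancel hN0.ne', one_pow, mul_one]
          calc (1 / N) ^ (7 * a - 24) ≤ (1 / N) ^ a :=
                pow_le_pow_of_le_one hq0.le (hq1.trans (by norm_num)) (by omega)
            _ ≤ (1 / 4) ^ a := pow_le_pow_left₀ hq0.le hq1 a
        exact (mul_le_mul_of_nonneg_right h9 (pow_nonneg hN0.le a)).trans h10)
  rw [Finset.sum_add_distrib] at hA
  have h1 := geo_le A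
  have h2 := few_le (A + 2)
  linarith

end Pool.Agent.Lib.MP_6b611a_co
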