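import Pool.Agent.Lib.MP_6b611a_co.KS.Final

/-! The translation to the conventions of the frozen statement. -/

set_option autoImplicit false

open Finset
open scoped Classical

namespace Pool.Agent.Lib.MP_6b611a_co

variable {V E : Type} [Fintype V] [Fintype E]

theorem card_cut (ends : E → Sym2 V) (s t : E → V) (h : ∀ e, s(s e, t e) = ends e)
    (X : Finset V) :
    Nat.card {e : E // ∃ a b : V, a ∈ X ∧ b ∉ X ∧ a ∈ ends e ∧ b ∈ ends e} = dd s t X := by
  rw [Nat.card_eq_fintype_card, Fintype.card_subtype]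
  unfold dd
  congr 1
  ext e
  rw [Finset.mem_filter, Finset.mem_filter]
  refine and_congr_right fun _ => ?_
  rw [← h e]
  simp only [Sym2.mem_iff]
  constructor
  · rintro ⟨a, b, ha, hb, rfl | rfl, rfl | rfl⟩ <;> tauto
  · intro h1
    by_cases h2 : s e ∈ X
    · have h3 : t e ∉ X := fun h3 => h1 ⟨fun _ => h3, fun _ => h2⟩
      exact ⟨s e, t e, h2, h3, Or.inl rfl, Or.inr rfl⟩
    · have h3 : t e ∈ X := by
        by_contra h3
        exact h1 ⟨fun h => absurd h h2, fun h => absurd h h3⟩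
      exact ⟨t e, s e, h3, h2, Or.inr rfl, Or.inl rfl⟩

theorem card_deg (ends : E → Sym2 V) (s t : E → V) (h : ∀ e, s(s e, t e) = ends e)
    (hst : ∀ e, s e ≠ t e) (v : V) :
    Nat.card {e : E // v ∈ ends e} = dd s t {v} := by
  rw [Nat.card_eq_fintype_card, Fintype.card_subtype]
  unfold dd
  congr 1
  ext e
  rw [Finset.mem_filter, Finset.mem_filter]
  refine and_congr_right fun _ => ?_
  rw [← h e]
  simp only [Sym2.mem_iff, Finset.mem_singleton]
  have h1 := hst e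
  constructor
  · rintro (rfl | rfl)
    · simp [Ne.symm h1]
    · simp [h1]
  · intro h2
    by_contra h3
    push Not at h3
    exact h2 ⟨fun h => absurd h.symm h3.1, fun h => absurd h.symm h3.2⟩

/-- The general theorem. -/
theorem general (k ℓ τ r : ℕ) (hk : 2 ≤ k) (ends : E → Sym2 V)
    (hloop : ∀ e : E, ¬ (ends e).IsDiag)
    (hreg : ∀ v : V, Nat.card {e : E // v ∈ ends e} = r)
    (hodd : ∀ X : Finset V, Odd X.card →
      r ≤ Nat.card {e : E // ∃ a b : V, a ∈ X ∧ b ∉ X ∧ a ∈ ends e ∧ b ∈ ends e})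
    (hcut : ∀ X : Finset V, X.Nonempty → X ≠ Finset.univ →
      r ≤ Nat.card {e : E // ∃ a b : V, a ∈ X ∧ b ∉ X ∧ a ∈ ends e ∧ b ∈ ends e})
    (hℓ : 2 * Fintype.card V ≤ 2 ^ ℓ) (hkℓ : k ≤ 2 ^ ℓ)
    (hτ : ∀ 𝒩 : Finset (Finset V), (∀ X ∈ 𝒩, Odd X.card ∧ 3 ≤ X.card ∧
        Nat.card {e : E // ∃ a b : V, a ∈ X ∧ b ∉ X ∧ a ∈ ends e ∧ b ∈ ends e} < r + 24 * k * ℓ) →
      (∀ X ∈ 𝒩, ∀ Y ∈ 𝒩, X ≠ Y → Disjoint X Y) → 𝒩.card ≤ τ)
    (hr : 8 * k * ℓ * (τ + 8) ≤ r) :
    ∃ M : Fin k → Finset E, (∀ i j, i ≠ j → Disjoint (M i) (M j)) ∧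
      ∀ i, ∀ v : V, ∃! e : E, e ∈ M i ∧ v ∈ ends e := by
  rcases Nat.eq_zero_or_pos (Fintype.card V) with hV0 | hV0
  · refine ⟨fun _ => ∅, fun _ _ _ => Finset.disjoint_empty_left _, fun _ v => ?_⟩
    exact absurd (Fintype.card_pos_iff.2 ⟨v⟩) (by omega)
  have hrep : ∀ e, ∃ p : V × V, s(p.1, p.2) = ends e := by
    intro e
    induction ends e using Sym2.ind with
    | _ a b => exact ⟨(a, b), rfl⟩
  choose f hf using hrep
  set s : E → V := fun e => (f e).1 with hs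
  set t : E → V := fun e => (f e).2 with ht
  have hst : ∀ e, s e ≠ t e := by
    intro e he
    apply hloop e
    rw [← hf e, Sym2.mk_isDiag_iff]
    exact he
  have hℓ1 : 1 ≤ ℓ := by
    rcases Nat.eq_zero_or_pos ℓ with h0 | h0
    · rw [h0, pow_zero] at hℓ
      omega
    · exact h0
  have hkℓ0 : 1 ≤ k * ℓ := Nat.one_le_iff_ne_zero.2 (by positivity)
  have hr64 : 64 * (k * ℓ) ≤ r := by
    have h1 : 8 * k * ℓ * 8 ≤ 8 * k * ℓ * (τ + 8) := Nat.mul_le_mul_left _ (by omega)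
    have h2 : 8 * k * ℓ * 8 = 64 * (k * ℓ) := by ring
    omega
  simp only [card_cut ends s t hf] at hodd hcut hτ
  simp only [card_deg ends s t hf hst] at hreg
  have heven : Even (Fintype.card V) := by
    by_contra hne
    rw [Nat.not_even_iff_odd] at hne
    have h1 := hodd univ (by rwa [Finset.card_univ])
    have h2 : dd s t (univ : Finset V) = 0 := by
      unfold dd
      simp
    omega
  have hV : 2 ≤ Fintype.card V := by
    obtain ⟨a, ha⟩ := heven
    omega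
  obtain ⟨z, hz, hz1, h16, hzr, hz0, hfin⟩ := numbers (n := Fintype.card V) hk hV hℓ hkℓ hr
  obtain ⟨c, hc⟩ := main s t hst (r := r) (by omega) hreg hcut heven hV hz hz1 (by omega) h16 hzr
    (E₀ := 24 * k * ℓ) (by
      have : 24 * k * ℓ = 24 * (k * ℓ) := by ring
      omega) hz0 τ hτ hfin
  choose M hM hM2 using hc
  refine ⟨M, fun i j hij => ?_, fun i v => ?_⟩
  · rw [Finset.disjoint_left]
    intro e he he'
    have h1 := (Finset.mem_filter.1 (hM i he)).2
    have h2 := (Finset.mem_filter.1 (hM j he')).2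
    exact hij (h1.symm.trans h2)
  · have h1 := hM2 i v
    simp only [hs, ht, hf] at h1
    exact h1

/-- The edges at the vertices of a set. -/
theorem deg_mult (ends : E → Sym2 V) (hloop : ∀ e : E, ¬ (ends e).IsDiag) {r μ : ℕ}
    (hreg : ∀ v : V, Nat.card {e : E // v ∈ ends e} = r)
    (hμ : ∀ z : Sym2 V, Nat.card {e : E // ends e = z} ≤ μ) (X : Finset V) :
    X.card * r ≤
      Nat.card {e : E // ∃ a b : V, a ∈ X ∧ b ∉ X ∧ a ∈ ends e ∧ b ∈ ends e} +
        X.card * ((X.card - 1) * μ) := by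
  have h1 : ∀ v ∈ X, r ≤ (univ.filter fun e => v ∈ ends e ∧ ∃ b, b ∉ X ∧ b ∈ ends e).card +
      (X.card - 1) * μ := by
    intro v hv
    have h2 : (univ.filter fun e => v ∈ ends e) ⊆
        (univ.filter fun e => v ∈ ends e ∧ ∃ b, b ∉ X ∧ b ∈ ends e) ∪
          (X.erase v).biUnion fun w => univ.filter fun e => ends e = s(v, w) := by
      intro e he
      rw [Finset.mem_filter] at he
      obtain ⟨w, hw⟩ := Sym2.mem_iff_exists.1 he.2
      rw [Finset.mem_union, Finset.mem_biUnion]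
      by_cases hwX : w ∈ X
      · right
        refine ⟨w, Finset.mem_erase.2 ⟨?_, hwX⟩, Finset.mem_filter.2 ⟨Finset.mem_univ _, hw⟩⟩
        rintro rfl
        exact hloop e (by rw [hw, Sym2.mk_isDiag_iff])
      · left
        refine Finset.mem_filter.2 ⟨Finset.mem_univ _, he.2, w, hwX, ?_⟩
        rw [hw]
        exact Sym2.mem_mk_right _ _
    have h3 := Finset.card_le_card h2
    have h4 : (univ.filter fun e => v ∈ ends e).card = r := by
      rw [← hreg v, Nat.card_eq_fintype_card, Fintype.card_subtype]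
    rw [h4] at h3
    refine h3.trans ((Finset.card_union_le _ _).trans (Nat.add_le_add_left ?_ _))
    refine Finset.card_biUnion_le.trans ?_
    have h5 : ∀ w ∈ X.erase v, (univ.filter fun e => ends e = s(v, w)).card ≤ μ := by
      intro w _
      have := hμ s(v, w)
      rwa [Nat.card_eq_fintype_card, Fintype.card_subtype] at this
    refine (Finset.sum_le_card_nsmul _ _ _ h5).trans ?_
    rw [Finset.card_erase_of_mem hv, smul_eq_mul]
  have h2 : ∑ v ∈ X, (univ.filter fun e => v ∈ ends e ∧ ∃ b, b ∉ X ∧ b ∈ ends e).card ≤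
      Nat.card {e : E // ∃ a b : V, a ∈ X ∧ b ∉ X ∧ a ∈ ends e ∧ b ∈ ends e} := by
    rw [← Finset.card_biUnion]
    · rw [Nat.card_eq_fintype_card, Fintype.card_subtype]
      refine Finset.card_le_card fun e he => ?_
      rw [Finset.mem_biUnion] at he
      obtain ⟨v, hv, he⟩ := he
      obtain ⟨_, h3, b, h4, h5⟩ := Finset.mem_filter.1 he
      exact Finset.mem_filter.2 ⟨Finset.mem_univ _, v, b, hv, h4, h3, h5⟩
    · intro v hv w hw hvw
      rw [Function.onFun, Finset.disjoint_left]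
      intro e he he'
      obtain ⟨_, h3, b, h4, h5⟩ := Finset.mem_filter.1 he
      obtain ⟨_, h6, _⟩ := Finset.mem_filter.1 he'
      have h7 : ends e = s(v, w) := (Sym2.mem_and_mem_iff hvw).1 ⟨h3, h6⟩
      rw [h7, Sym2.mem_iff] at h5
      rcases h5 with rfl | rfl
      · exact h4 hv
      · exact h4 hw
  have h3 := Finset.sum_le_sum h1
  rw [Finset.sum_const, smul_eq_mul, Finset.sum_add_distrib, Finset.sum_const, smul_eq_mul] at h3
  omega

/-- The theorem with a bound for the multiplicities. -/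
theorem bounded (k ℓ μ τ r : ℕ) (hk : 2 ≤ k) (ends : E → Sym2 V)
    (hloop : ∀ e : E, ¬ (ends e).IsDiag)
    (hreg : ∀ v : V, Nat.card {e : E // v ∈ ends e} = r)
    (hodd : ∀ X : Finset V, Odd X.card →
      r ≤ Nat.card {e : E // ∃ a b : V, a ∈ X ∧ b ∉ X ∧ a ∈ ends e ∧ b ∈ ends e})
    (hcut : ∀ X : Finset V, X.Nonempty → X ≠ Finset.univ →
      r ≤ Nat.card {e : E // ∃ a b : V, a ∈ X ∧ b ∉ X ∧ a ∈ ends e ∧ b ∈ ends e})
    (hμ : ∀ z : Sym2 V, Nat.card {e : E // ends e = z} ≤ μ)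
    (hℓ : 2 * Fintype.card V ≤ 2 ^ ℓ) (hkℓ : k ≤ 2 ^ ℓ)
    (hτ : ∀ 𝒩 : Finset (Finset V),
      (∀ X ∈ 𝒩, Odd X.card ∧ 3 ≤ X.card ∧ r ≤ 2 * μ * X.card ∧
        Nat.card {e : E // ∃ a b : V, a ∈ X ∧ b ∉ X ∧ a ∈ ends e ∧ b ∈ ends e} < r + 24 * k * ℓ) →
      (∀ X ∈ 𝒩, ∀ Y ∈ 𝒩, X ≠ Y → Disjoint X Y) → 𝒩.card ≤ τ)
    (hr : 8 * k * ℓ * (τ + 8) ≤ r) :
    ∃ M : Fin k → Finset E, (∀ i j, i ≠ j → Disjoint (M i) (M j)) ∧
      ∀ i, ∀ v : V, ∃! e : E, e ∈ M i ∧ v ∈ ends e := by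
  refine general k ℓ τ r hk ends hloop hreg hodd hcut hℓ hkℓ ?_ hr
  intro 𝒩 h𝒩 hdis
  refine hτ 𝒩 (fun X hX => ?_) hdis
  obtain ⟨h1, h3, h4⟩ := h𝒩 X hX
  refine ⟨h1, h3, ?_, h4⟩
  have h5 := deg_mult ends hloop hreg hμ X
  by_contra hlt
  push Not at hlt
  have h6 : X.card * ((X.card - 1) * μ) ≤ X.card * (X.card * μ) :=
    Nat.mul_le_mul_left _ (Nat.mul_le_mul_right _ (by omega))
  have h7 : 2 * (X.card * (X.card * μ)) ≤ X.card * r := by
    have : 2 * (X.card * (X.card * μ)) = X.card * (2 * μ * X.card) := by ring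
    rw [this]
    exact Nat.mul_le_mul_left _ hlt.le
  have h8 : 3 * r ≤ X.card * r := Nat.mul_le_mul_right _ h3
  have h9 : 24 * k * ℓ = 24 * (k * ℓ) := by ring
  have h10 : 8 * k * ℓ * 8 ≤ 8 * k * ℓ * (τ + 8) := Nat.mul_le_mul_left _ (by omega)
  have h11 : 8 * k * ℓ * 8 = 64 * (k * ℓ) := by ring
  omega

end Pool.Agent.Lib.MP_6b611a_co
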