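import Pool.Agent.Lib.MP_6b611a_co.KS.Fam

/-! The structure given by Tutte's theorem. -/

set_option autoImplicit false

open Finset
open scoped Classical

namespace Pool.Agent.Lib.MP_6b611a_co

/-- The even components are added to one of the odd components. -/
theorem merge {V : Type} [Fintype V] (G : SimpleGraph V) (S : Finset V) (𝒪 : Finset (Finset V))
    (hodd : ∀ X ∈ 𝒪, Odd X.card) (hS : ∀ X ∈ 𝒪, Disjoint X S)
    (hdis : ∀ X ∈ 𝒪, ∀ Y ∈ 𝒪, X ≠ Y → Disjoint X Y) (hne : 𝒪.Nonempty)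
    (hpar : Even (𝒪.card + Sᶜ.card))
    (hadj : ∀ X ∈ 𝒪, ∀ u v, G.Adj u v → v ∉ S → u ∈ X → v ∈ X) :
    ∃ 𝒬 : Finset (Finset V), 𝒬.card = 𝒪.card ∧ (∀ X ∈ 𝒬, Odd X.card) ∧
      (∀ X ∈ 𝒬, Disjoint X S) ∧ (∀ X ∈ 𝒬, ∀ Y ∈ 𝒬, X ≠ Y → Disjoint X Y) ∧
      (∀ v, v ∉ S → ∃ X ∈ 𝒬, v ∈ X) ∧
      (∀ X ∈ 𝒬, ∀ u v, G.Adj u v → v ∉ S → u ∈ X → v ∈ X) := by
  obtain ⟨X₀, hX₀⟩ := hne
  set Y₀ : Finset V := univ.filter fun v => v ∉ S ∧ ∀ X ∈ 𝒪.erase X₀, v ∉ X with hY₀
  have hU : Sᶜ = Y₀ ∪ (𝒪.erase X₀).biUnion id := by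
    ext v
    simp only [hY₀, Finset.mem_compl, Finset.mem_union, Finset.mem_filter, Finset.mem_univ,
      true_and, Finset.mem_biUnion, id]
    constructor
    · intro h
      by_cases h2 : ∃ X ∈ 𝒪.erase X₀, v ∈ X
      · exact Or.inr h2
      · push Not at h2
        exact Or.inl ⟨h, h2⟩
    · rintro (⟨h, _⟩ | ⟨X, hX, hv⟩)
      · exact h
      · exact Finset.disjoint_left.1 (hS X (Finset.mem_of_mem_erase hX)) hv
  have hD : Disjoint Y₀ ((𝒪.erase X₀).biUnion id) := by
    rw [Finset.disjoint_left]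
    intro v hv hv2
    rw [Finset.mem_biUnion] at hv2
    obtain ⟨X, hX, hvX⟩ := hv2
    rw [hY₀, Finset.mem_filter] at hv
    exact hv.2.2 X hX hvX
  have hB : ((𝒪.erase X₀).biUnion id).card = ∑ X ∈ 𝒪.erase X₀, X.card := by
    rw [Finset.card_biUnion]
    · rfl
    · intro X hX Y hY hXY
      exact hdis X (Finset.mem_of_mem_erase hX) Y (Finset.mem_of_mem_erase hY) hXY
  have hB2 : Odd (∑ X ∈ 𝒪.erase X₀, X.card) ↔ Odd (𝒪.erase X₀).card := by
    rw [Finset.odd_sum_iff_odd_card_odd]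
    have : ((𝒪.erase X₀).filter fun x => Odd x.card) = 𝒪.erase X₀ :=
      Finset.filter_true_of_mem fun X hX => hodd X (Finset.mem_of_mem_erase hX)
    rw [this]
  have hc : Sᶜ.card = Y₀.card + ∑ X ∈ 𝒪.erase X₀, X.card := by
    rw [← hB, ← Finset.card_union_of_disjoint hD, ← hU]
  have hc2 : (𝒪.erase X₀).card + 1 = 𝒪.card := Finset.card_erase_add_one hX₀
  have hYodd : Odd Y₀.card := by
    rw [hc, ← hc2] at hpar
    by_contra hne
    rw [Nat.not_odd_iff_even] at hne
    rcases Nat.even_or_odd (∑ X ∈ 𝒪.erase X₀, X.card) with h1 | h1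
    · have h2 : ¬ Odd (𝒪.erase X₀).card := by rw [← hB2]; exact Nat.not_odd_iff_even.2 h1
      rw [Nat.not_odd_iff_even] at h2
      obtain ⟨a, ha⟩ := h1
      obtain ⟨b, hb⟩ := h2
      obtain ⟨c, hc'⟩ := hne
      obtain ⟨d, hd⟩ := hpar
      omega
    · have h2 := hB2.1 h1
      obtain ⟨a, ha⟩ := h1
      obtain ⟨b, hb⟩ := h2
      obtain ⟨c, hc'⟩ := hne
      obtain ⟨d, hd⟩ := hpar
      omega
  have hYdis : ∀ X ∈ 𝒪.erase X₀, Disjoint Y₀ X := by
    intro X hX
    rw [Finset.disjoint_left]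
    intro v hv
    rw [hY₀, Finset.mem_filter] at hv
    exact hv.2.2 X hX
  have hYne : Y₀.Nonempty := by
    rw [← Finset.card_pos]
    exact hYodd.pos
  have hYnot : Y₀ ∉ 𝒪.erase X₀ := by
    intro h
    obtain ⟨v, hv⟩ := hYne
    exact Finset.disjoint_left.1 (hYdis Y₀ h) hv hv
  refine ⟨insert Y₀ (𝒪.erase X₀), ?_, ?_, ?_, ?_, ?_, ?_⟩
  · rw [Finset.card_insert_of_notMem hYnot, hc2]
  · intro X hX
    rcases Finset.mem_insert.1 hX with rfl | hX
    · exact hYodd
    · exact hodd X (Finset.mem_of_mem_erase hX)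
  · intro X hX
    rcases Finset.mem_insert.1 hX with rfl | hX
    · rw [Finset.disjoint_left]
      intro v hv
      rw [hY₀, Finset.mem_filter] at hv
      exact hv.2.1
    · exact hS X (Finset.mem_of_mem_erase hX)
  · intro X hX Y hY hXY
    rcases Finset.mem_insert.1 hX with hX' | hX'
    · rcases Finset.mem_insert.1 hY with hY' | hY'
      · exact absurd (hX'.trans hY'.symm) hXY
      · rw [hX']
        exact hYdis Y hY'
    · rcases Finset.mem_insert.1 hY with hY' | hY'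
      · rw [hY']
        exact (hYdis X hX').symm
      · exact hdis X (Finset.mem_of_mem_erase hX') Y (Finset.mem_of_mem_erase hY') hXY
  · intro v hv
    have h1 : v ∈ Sᶜ := Finset.mem_compl.2 hv
    rw [hU, Finset.mem_union, Finset.mem_biUnion] at h1
    rcases h1 with h1 | ⟨X, hX, hvX⟩
    · exact ⟨Y₀, Finset.mem_insert_self _ _, h1⟩
    · exact ⟨X, Finset.mem_insert_of_mem hX, hvX⟩
  · intro X hX u v huv hv hu
    rcases Finset.mem_insert.1 hX with rfl | hX
    · rw [hY₀, Finset.mem_filter] at hu ⊢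
      refine ⟨Finset.mem_univ _, hv, fun X hX hvX => ?_⟩
      exact hu.2.2 X hX (hadj X (Finset.mem_of_mem_erase hX) v u huv.symm hu.2.1 hvX)
    · exact hadj X (Finset.mem_of_mem_erase hX) u v huv hv hu

theorem tutte_parts {V : Type} [Fintype V] (G : SimpleGraph V) (heven : Even (Fintype.card V))
    (h : ¬ ∃ M : G.Subgraph, M.IsPerfectMatching) :
    ∃ (S : Finset V) (𝒬 : Finset (Finset V)), S.card + 2 ≤ 𝒬.card ∧ (∀ X ∈ 𝒬, Odd X.card) ∧
      (∀ X ∈ 𝒬, Disjoint X S) ∧ (∀ X ∈ 𝒬, ∀ Y ∈ 𝒬, X ≠ Y → Disjoint X Y) ∧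
      (∀ v, v ∉ S → ∃ X ∈ 𝒬, v ∈ X) ∧
      (∀ X ∈ 𝒬, ∀ u v, G.Adj u v → v ∉ S → u ∈ X → v ∈ X) := by
  rw [SimpleGraph.tutte] at h
  push Not at h
  obtain ⟨u, hu⟩ := h
  unfold SimpleGraph.IsTutteViolator at hu
  set K := (⊤ : G.Subgraph).deleteVerts u with hK
  have hKv : ∀ v : V, v ∈ K.verts ↔ v ∉ u := by
    intro v
    rw [hK, SimpleGraph.Subgraph.deleteVerts_verts]
    simp
  set S : Finset V := univ.filter fun v => v ∈ u with hS
  have hSu : (S : Set V) = u := by
    ext v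
    simp [hS]
  have hScard : u.ncard = S.card := by
    rw [← hSu, Set.ncard_coe_finset]
  let F : K.coe.ConnectedComponent → Finset V := fun C =>
    univ.filter fun v => ∃ h : v ∈ K.verts, K.coe.connectedComponentMk ⟨v, h⟩ = C
  have hFcard : ∀ C, (F C).card = C.supp.ncard := by
    intro C
    rw [← Set.ncard_coe_finset, ← Set.ncard_image_of_injective C.supp Subtype.val_injective]
    congr 1
    ext v
    simp only [F, Finset.coe_filter, Finset.mem_univ, true_and, Set.mem_ofPred_eq, Set.mem_image,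
      SimpleGraph.ConnectedComponent.mem_supp_iff, Subtype.exists, exists_and_right,
      exists_eq_right]
  have hFne : ∀ C, (F C).Nonempty := by
    intro C
    obtain ⟨⟨v, hv⟩, hC⟩ := C.exists_rep
    exact ⟨v, Finset.mem_filter.2 ⟨Finset.mem_univ _, hv, hC⟩⟩
  have hFdis : ∀ C C', C ≠ C' → Disjoint (F C) (F C') := by
    intro C C' hCC
    rw [Finset.disjoint_left]
    intro v hv hv'
    obtain ⟨_, h1, h2⟩ := Finset.mem_filter.1 hv
    obtain ⟨_, h3, h4⟩ := Finset.mem_filter.1 hv'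
    exact hCC (h2.symm.trans h4)
  have hFinj : Function.Injective F := by
    intro C C' hCC
    by_contra hne
    have h1 := hFdis C C' hne
    rw [hCC] at h1
    obtain ⟨v, hv⟩ := hFne C'
    exact Finset.disjoint_left.1 h1 hv hv
  set O := (Set.toFinite K.coe.oddComponents).toFinset with hO
  have hOcard : K.coe.oddComponents.ncard = O.card := by
    rw [Set.ncard_eq_toFinset_card _ (Set.toFinite _)]
  have hSc : Sᶜ.card + S.card = Fintype.card V := by
    rw [Finset.card_compl]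
    have := Finset.card_le_univ S
    omega
  have hpar := SimpleGraph.odd_ncard_oddComponents K.coe
  have hKc : Nat.card K.verts = Sᶜ.card := by
    rw [Nat.card_coe_set_eq, ← Set.ncard_coe_finset]
    congr 1
    ext v
    rw [hKv, Finset.mem_coe, Finset.mem_compl, hS, Finset.mem_filter]
    simp
  rw [hKc, hOcard] at hpar
  rw [hOcard, hScard] at hu
  have hpar2 : Even (O.card + Sᶜ.card) := by
    rcases Nat.even_or_odd O.card with h1 | h1
    · have h2 : ¬ Odd Sᶜ.card := by rw [← hpar]; exact Nat.not_odd_iff_even.2 h1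
      rw [Nat.not_odd_iff_even] at h2
      exact h1.add h2
    · exact h1.add_odd (hpar.1 h1)
  obtain ⟨𝒬, h1, h2, h3, h4, h5, h6⟩ := merge G S (O.image F)
    (by
      intro X hX
      obtain ⟨C, hC, rfl⟩ := Finset.mem_image.1 hX
      rw [hFcard]
      rw [hO, Set.Finite.mem_toFinset] at hC
      exact hC)
    (by
      intro X hX
      obtain ⟨C, hC, rfl⟩ := Finset.mem_image.1 hX
      rw [Finset.disjoint_left]
      intro v hv hv2
      obtain ⟨_, h1, _⟩ := Finset.mem_filter.1 hv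
      rw [hKv] at h1
      exact h1 (Finset.mem_filter.1 hv2).2)
    (by
      intro X hX Y hY hXY
      obtain ⟨C, hC, rfl⟩ := Finset.mem_image.1 hX
      obtain ⟨C', hC', rfl⟩ := Finset.mem_image.1 hY
      exact hFdis C C' fun h => hXY (by rw [h]))
    (by
      have : O.Nonempty := Finset.card_pos.1 (by omega)
      exact this.image F)
    (by rw [Finset.card_image_of_injective O hFinj]; exact hpar2)
    (by
      intro X hX a b hab hb ha
      obtain ⟨C, hC, rfl⟩ := Finset.mem_image.1 hX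
      obtain ⟨_, h1, h2⟩ := Finset.mem_filter.1 ha
      have hb2 : b ∈ K.verts := by
        rw [hKv]
        intro h
        exact hb (Finset.mem_filter.2 ⟨Finset.mem_univ _, h⟩)
      refine Finset.mem_filter.2 ⟨Finset.mem_univ _, hb2, ?_⟩
      rw [← h2]
      apply SimpleGraph.ConnectedComponent.sound
      apply SimpleGraph.Adj.reachable
      rw [SimpleGraph.Subgraph.coe_adj]
      change K.Adj b a
      rw [hK, SimpleGraph.Subgraph.deleteVerts_adj]
      have h1' := (hKv a).1 h1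
      have hb2' := (hKv b).1 hb2
      simp [hab.symm, h1', hb2'])
  rw [Finset.card_image_of_injective O hFinj] at h1
  refine ⟨S, 𝒬, ?_, h2, h3, h4, h5, h6⟩
  rw [h1]
  obtain ⟨a, ha⟩ := heven
  obtain ⟨b, hb⟩ := hpar2
  omega

end Pool.Agent.Lib.MP_6b611a_co
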